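import Pool.Agent.K1H47.RC.Loc2

set_option autoImplicit false

/-! The local theorem: lemmas. -/

namespace Pool.Agent.K1H47.RC

open MvPolynomial Topology Filter Pool.Agent.H936R2 Pool.Agent.R847.Gap Pool.Agent.K1H69.MZ

section

variable {K : Type} [Field K] {ι : Type} {L : Type} [NontriviallyNormedField L]
  [IsUltrametricDist L] [CharZero L] {σ : K →+* L} {S : Set (MvPolynomial ι K)}

/-- the link with the `K`-points -/
lemma link {φ : Aut S} {F G : Sys L ι (Fin φ.m)} (hF : Lifts σ φ.f F)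
    (h : Good (QS σ S) F G) {z w : ι → unitBall L} (hzp : Prim z) (hz : z ∈ ZS (QS σ S))
    (hwp : Prim w) {n : ℕ} (hRp : Rp F n z w) {y : ι → K} (hyS : ∀ s ∈ S, eval y s = 0)
    (hzy : Pr σ z y) :
    (∃ v, Img φ n y v) ∧ ∀ v, Img φ n y v → ∃ c : L, c ≠ 0 ∧ ∀ i, (w i : L) = c * σ (v i) := by
  refine ⟨(img_of_rp hF hzp hzy hRp).imp fun _ h => h.1, fun v hv => ?_⟩
  obtain ⟨w', hw'p, hw', hw'v⟩ := rp_of_img hF h hz hzp (hzy.ne_zero hzp) hyS hzy hv
  have h1 := Rp.contr h le_rfl zero_lt_one hz hzp hz hzp (Cl.self le_rfl _) hw' hRp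
  exact hw'v.of_cl hw'p hwp h1

omit [CharZero L] in
lemma eval_of_smul {W : MvPolynomial ι K} {e : ℕ} (hW : W.IsHomogeneous e) {w : ι → L}
    {v : ι → K} {c : L} (hc : c ≠ 0) (hw : ∀ i, w i = c * σ (v i)) :
    eval w (map σ W) = 0 ↔ eval v W = 0 := by
  have h1 : w = fun i => c * σ (v i) := funext hw
  have h2 : eval (fun i => σ (v i)) (map σ W) = σ (eval v W) := by
    rw [eval_map]
    have h := eval₂_comp_left σ (RingHom.id _) v W
    rw [RingHom.comp_id] at h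
    exact h.symm
  rw [h1, eval_hom (hW.map σ), h2, mul_eq_zero, map_eq_zero]
  constructor
  · rintro (h | h)
    · exact absurd h (pow_ne_zero _ hc)
    · exact h
  · exact Or.inr

lemma infinite_near (hσ : DenseRange σ) (s₀ : L) {ε : ℝ} (hε : 0 < ε) :
    {s : K | ‖σ s - s₀‖ < ε}.Infinite := by
  intro hfin
  have h1 : (σ '' {s : K | ‖σ s - s₀‖ < ε}).Finite := hfin.image _
  have h2 : IsOpen (Metric.ball s₀ ε \ σ '' {s : K | ‖σ s - s₀‖ < ε}) :=
    Metric.isOpen_ball.sdiff h1.isClosed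
  have h3 : (Metric.ball s₀ ε \ σ '' {s : K | ‖σ s - s₀‖ < ε}).Nonempty := by
    have h4 : (Metric.ball s₀ ε).Infinite :=
      infinite_of_mem_nhds s₀ (Metric.ball_mem_nhds s₀ hε)
    exact (h4.diff h1).nonempty
  obtain ⟨s, hs1, hs2⟩ := hσ.exists_mem_open h2 h3
  exact hs2 ⟨s, by simpa [dist_eq_norm] using hs1, rfl⟩

omit [IsUltrametricDist L] [CharZero L] in
lemma Sm.hasDerivAt {C : ℝ} {a a' : L → L} (h : Sm C a a') {s : L} (hs : ‖s‖ < 1) :
    HasDerivAt a (a' s) s := by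
  rw [hasDerivAt_iff_isLittleO]
  rw [Asymptotics.isLittleO_iff]
  intro ε hε
  have hC := h.nonneg
  have h1 : ∀ᶠ x in 𝓝 s, ‖x‖ < 1 := continuous_norm.continuousAt.eventually_lt
    continuousAt_const hs
  have h2 : ∀ᶠ x in 𝓝 s, C * ‖x - s‖ < ε := by
    have h3 : ContinuousAt (fun x : L => C * ‖x - s‖) s := by fun_prop
    apply h3.eventually_lt continuousAt_const
    simpa using hε
  filter_upwards [h1, h2] with x hx1 hx2
  have h3 := h.2.2 x s s hx1.le hs.le hs.le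
  rw [smul_eq_mul, mul_comm (x - s)]
  refine h3.trans ?_
  rw [sub_self, norm_zero, max_eq_left (norm_nonneg _)]
  calc C * (‖x - s‖ * ‖x - s‖) = (C * ‖x - s‖) * ‖x - s‖ := by ring
    _ ≤ ε * ‖x - s‖ := mul_le_mul_of_nonneg_right hx2.le (norm_nonneg _)

omit [IsUltrametricDist L] [CharZero L] in
lemma ev_zero (C : ι → ℕ → L → L) (s : L) (i : ι) : ev C s 0 i = C i 0 s := by
  unfold ev
  rw [tsum_eq_single 0]
  · simp
  · intro k hk
    simp [hk]

/-- immersion -/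
lemma immersed {C C' : ι → ℕ → L → L} {ρ₀ : ℝ} (hC : Fam ρ₀ C C') (R R' : ι → L → L)
    (hR : ∀ i s, HasDerivAt (R i) (R' i s) s)
    (hCR : ∀ s, ‖s‖ ≤ 1 → ∃ l : L, l ≠ 0 ∧ ∀ i, C i 0 s = l * R i s) {s : L} (hs : ‖s‖ < 1)
    (him : ∃ i j, R i s * R' j s - R j s * R' i s ≠ 0) :
    ∃ i j, C i 0 s * C' j 0 s - C j 0 s * C' i 0 s ≠ 0 := by
  obtain ⟨i, j, hij⟩ := him
  refine ⟨i, j, ?_⟩
  obtain ⟨l, hl, hls⟩ := hCR s hs.le
  -- the products are equal near `s`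
  have h1 : (fun x => C i 0 x * R j x) =ᶠ[𝓝 s] fun x => C j 0 x * R i x := by
    have h2 : ∀ᶠ x in 𝓝 s, ‖x‖ < 1 := continuous_norm.continuousAt.eventually_lt
      continuousAt_const hs
    filter_upwards [h2] with x hx
    obtain ⟨l', -, h3⟩ := hCR x hx.le
    rw [h3 i, h3 j]
    ring
  have hd : ∀ i, HasDerivAt (C i 0) (C' i 0 s) s := fun i => (hC i 0).hasDerivAt hs
  have h2 := ((hd i).mul (hR j s))
  have h3 := ((hd j).mul (hR i s))
  have h4 : C' i 0 s * R j s + C i 0 s * R' j s = C' j 0 s * R i s + C j 0 s * R' i s :=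
    h2.unique (h3.congr_of_eventuallyEq h1)
  have h5 : C i 0 s * C' j 0 s - C j 0 s * C' i 0 s =
      l ^ 2 * (R i s * R' j s - R j s * R' i s) := by
    rw [hls i, hls j] at h4 ⊢
    linear_combination (-l) * h4
  rw [h5]
  exact mul_ne_zero (pow_ne_zero _ hl) hij

end

section

variable {K : Type} [Field K] {ι : Type} [Fintype ι] [DecidableEq ι] {L : Type}
  [NontriviallyNormedField L] [IsUltrametricDist L] [CharZero L] {σ : K →+* L}
  {S : Set (MvPolynomial ι K)}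
variable (p : ℕ) [hp : Fact p.Prime] (hpL : ‖(p : L)‖ < 1)

include hp hpL in
omit [IsUltrametricDist L] in
lemma acc_multiples {κ : ℕ} (hκ : 0 < κ) {δ : ℝ} (hδ : 0 < δ) :
    Acc {t : L | ∃ n : ℕ, κ ∣ n ∧ t = n ∧ ‖t‖ < δ} := by
  intro ε hε
  have hp0 : 0 < ‖(p : L)‖ := norm_pos_iff.2 (Nat.cast_ne_zero.2 hp.out.ne_zero)
  have hκ0 : 0 < ‖(κ : L)‖ := norm_pos_iff.2 (Nat.cast_ne_zero.2 hκ.ne')
  obtain ⟨e, he⟩ := exists_pow_lt_of_lt_one (show 0 < min ε δ / ‖(κ : L)‖ by positivity) hpL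
  have h1 : ‖((κ * p ^ e : ℕ) : L)‖ < min ε δ := by
    push_cast
    rw [norm_mul, norm_pow, mul_comm]
    exact (lt_div_iff₀ hκ0).1 he
  refine ⟨((κ * p ^ e : ℕ) : L), ⟨κ * p ^ e, dvd_mul_right _ _, rfl,
    h1.trans_le (min_le_right _ _)⟩, ?_, h1.trans_le (min_le_left _ _)⟩
  exact Nat.cast_ne_zero.2 (Nat.mul_pos hκ (pow_pos hp.out.pos _)).ne'

include hp hpL in
omit [Fintype ι] [DecidableEq ι] in
lemma eval_of_mem_ZS {w : ι → unitBall L} (hw : w ∈ ZS (QS σ S)) {q : MvPolynomial ι K}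
    (hq : q ∈ S) : eval (fun i => (w i : L)) (map σ q) = 0 := by
  obtain ⟨c, q', hc, hq'⟩ := exists_scale p hpL (map σ q)
  have h1 := hw q' ⟨c, q, hq, hq'⟩
  have h2 := eval_coe w q'
  rw [h1, hq', map_mul, eval_C] at h2
  rcases mul_eq_zero.1 h2.symm with h3 | h3
  · exact absurd h3 hc
  · exact h3

omit [IsUltrametricDist L] [CharZero L] [DecidableEq ι] in
lemma tanSp_smul {S : Set (MvPolynomial ι L)} (hS : ∀ q ∈ S, ∃ d : ℕ, q.IsHomogeneous d)
    {c : L} (hc : c ≠ 0) (z : ι → L) : tanSp S (c • z) = tanSp S z := by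
  have h1 : ∀ q ∈ S, ∃ e : ℕ, ∀ i, eval (c • z) (pderiv i q) = c ^ e * eval z (pderiv i q) := by
    intro q hq
    obtain ⟨d, hd⟩ := hS q hq
    exact ⟨d - 1, fun i => eval_hom (hd.pderiv (i := i)) c z⟩
  ext w
  constructor
  · intro hw q hq
    obtain ⟨e, he⟩ := h1 q hq
    have h2 := hw q hq
    have h3 : c ^ e * ∑ i, eval z (pderiv i q) * w i = 0 := by
      rw [← h2, Finset.mul_sum]
      exact Finset.sum_congr rfl fun i _ => by rw [he]; ring
    rcases mul_eq_zero.1 h3 with h4 | h4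
    · exact absurd h4 (pow_ne_zero _ hc)
    · exact h4
  · intro hw q hq
    obtain ⟨e, he⟩ := h1 q hq
    have h2 := hw q hq
    calc ∑ i, eval (c • z) (pderiv i q) * w i = c ^ e * ∑ i, eval z (pderiv i q) * w i := by
          rw [Finset.mul_sum]
          exact Finset.sum_congr rfl fun i _ => by rw [he]; ring
      _ = 0 := by rw [h2, mul_zero]

end

end Pool.Agent.K1H47.RC
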