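import Pool.Agent.K1H47.RC.Glob
import Pool.Agent.K1H33.RC.Flat
import Pool.Agent.K1H33.RC.Newt
import Pool.Agent.K1H65.RC.Open
import Pool.Agent.K1H45.RC.Gen
import Pool.Agent.K1H45.RC.Shad
import Pool.Agent.K1H99.RC.Strict
import Pool.Agent.K1H99.RC.Dense
import Pool.Agent.K1H52.RC.Smooth

set_option autoImplicit false

/-! The global theorem, all pieces together. -/

namespace Pool.Agent.K1H47.RC

open MvPolynomial Topology Filter Pool.Agent.K1H69.MZ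

theorem final (K : Type) [Field K] [NumberField K] (n : ℕ)
    (S : Set (MvPolynomial (Fin (n + 1)) K)) (hS : ∀ q ∈ S, ∃ d : ℕ, q.IsHomogeneous d)
    (φ : Aut S) (r : Fin (n + 1) → Polynomial K) (hr : ∀ q ∈ S, aeval r q = 0)
    (hc : ∃ i j, r i * (r j).derivative ≠ r j * (r i).derivative)
    (hper : ∀ k : ℕ, 0 < k → ∃ (W : MvPolynomial (Fin (n + 1)) K) (e : ℕ), W.IsHomogeneous e ∧
      aeval r W = 0 ∧ ∃ s : K, (fun i => (r i).eval s) ≠ 0 ∧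
        ∃ w, Img φ k (fun i => (r i).eval s) w ∧ eval w W ≠ 0)
    (hsm : ∃ s : K, Module.finrank K (tanSp S fun i => (r i).eval s) ≤ 3) :
    ∃ N : ℕ, 0 < N ∧ ∀ (ι : Type) [Finite ι] [Nonempty ι] (p : ι → ℕ)
      [∀ i, Fact (p i).Prime],
      Function.Injective p → (∀ i, ¬ p i ∣ N) → ∀ (σ : ∀ i, K →+* ℚ_[p i]) (s : ∀ i, ℚ_[p i]),
      ∀ U ∈ 𝓝 (fun i => cv (σ i) r (s i)), ∃ V : Set (∀ i, Fin (n + 1) → ℚ_[p i]),
        IsOpen V ∧ V ⊆ U ∧ (∃ z ∈ V, ∀ i, ∀ q ∈ S, eval (z i) (map (σ i) q) = 0) ∧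
        ∀ x ∈ V, (∀ i, ∀ q ∈ S, eval (x i) (map (σ i) q) = 0) → x ∈ closure (rat S σ) :=
  global Pool.Agent.K1H99.RC.t_STRICT Pool.Agent.K1H33.RC.t_ZERO Pool.Agent.K1H33.RC.t_FLAT
    Pool.Agent.K1H65.RC.t_OPEN Pool.Agent.K1H52.RC.t_TAN Pool.Agent.K1H52.RC.t_SMOOTH
    Pool.Agent.K1H45.RC.t_GEN Pool.Agent.K1H45.RC.t_SHAD Pool.Agent.K1H33.RC.t_NEWT
    Pool.Agent.K1H99.RC.t_DENSE K n S hS φ r hr hc hper hsm

end Pool.Agent.K1H47.RC
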