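import Pool.Agent.K1H47.RC.Loc5
import Pool.Agent.K1H47.RC.Final

set_option autoImplicit false

/-! The global theorem at the points of the curve. -/

namespace Pool.Agent.K1H47.RC

open MvPolynomial Topology Filter Pool.Agent.H936R2 Pool.Agent.R847.Gap Pool.Agent.K1H69.MZ

lemma continuous_cv {K : Type} [Field K] {n : ℕ} {L : Type} [NontriviallyNormedField L]
    (σ : K →+* L) (r : Fin (n + 1) → Polynomial K) : Continuous (cv σ r) := by
  apply continuous_pi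
  intro j
  have h1 : (fun s => cv σ r s j) = fun s => ((r j).map σ).eval s := by
    funext s; rw [Polynomial.eval_map]; rfl
  rw [h1]
  exact ((r j).map σ).continuous

/-- the parameters at which the curve has a neighbourhood in which the rational points are dense -/
def good {K : Type} [Field K] {n : ℕ} (S : Set (MvPolynomial (Fin (n + 1)) K))
    (r : Fin (n + 1) → Polynomial K) {ι : Type}
    {p : ι → ℕ} [∀ i, Fact (p i).Prime] (σ : ∀ i, K →+* ℚ_[p i]) : Set (∀ i, ℚ_[p i]) :=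
  {s | ∃ V ∈ 𝓝 (fun i => cv (σ i) r (s i)), ∀ x ∈ V,
    (∀ i, ∀ q ∈ S, eval (x i) (map (σ i) q) = 0) → x ∈ closure (rat S σ)}

lemma isOpen_good {K : Type} [Field K] {n : ℕ} (S : Set (MvPolynomial (Fin (n + 1)) K))
    (r : Fin (n + 1) → Polynomial K) {ι : Type}
    {p : ι → ℕ} [∀ i, Fact (p i).Prime] (σ : ∀ i, K →+* ℚ_[p i]) : IsOpen (good S r σ) := by
  rw [isOpen_iff_mem_nhds]
  rintro s ⟨V, hV, hx⟩
  have hc : Continuous fun s : ∀ i, ℚ_[p i] => fun i => cv (σ i) r (s i) :=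
    continuous_pi fun i => (continuous_cv (σ i) r).comp (continuous_apply i)
  have h1 : ∀ᶠ y in 𝓝 (fun i => cv (σ i) r (s i)), V ∈ 𝓝 y := eventually_mem_nhds_iff.2 hV
  filter_upwards [hc.continuousAt.eventually h1] with s' hs'
  exact ⟨V, hs', hx⟩

theorem dense_good (K : Type) [Field K] [NumberField K] (n : ℕ)
    (S : Set (MvPolynomial (Fin (n + 1)) K)) (hS : ∀ q ∈ S, ∃ d : ℕ, q.IsHomogeneous d)
    (φ : Aut S) (r : Fin (n + 1) → Polynomial K) (hr : ∀ q ∈ S, aeval r q = 0)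
    (hc : ∃ i j, r i * (r j).derivative ≠ r j * (r i).derivative)
    (hper : ∀ k : ℕ, 0 < k → ∃ (W : MvPolynomial (Fin (n + 1)) K) (e : ℕ), W.IsHomogeneous e ∧
      aeval r W = 0 ∧ ∃ s : K, (fun i => (r i).eval s) ≠ 0 ∧
        ∃ w, Img φ k (fun i => (r i).eval s) w ∧ eval w W ≠ 0)
    (hsm : ∃ s : K, Module.finrank K (tanSp S fun i => (r i).eval s) ≤ 3) :
    ∃ N : ℕ, 0 < N ∧ ∀ (ι : Type) [Finite ι] [Nonempty ι] (p : ι → ℕ)
      [∀ i, Fact (p i).Prime], Function.Injective p → (∀ i, ¬ p i ∣ N) →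
      ∀ (σ : ∀ i, K →+* ℚ_[p i]), Dense (good S r σ) := by
  classical
  have hSTRICT := Pool.Agent.K1H99.RC.t_STRICT
  have hZERO := Pool.Agent.K1H33.RC.t_ZERO
  have hFLAT := Pool.Agent.K1H33.RC.t_FLAT
  have hOPEN := Pool.Agent.K1H65.RC.t_OPEN
  have hTAN := Pool.Agent.K1H52.RC.t_TAN
  have hSMOOTH := Pool.Agent.K1H52.RC.t_SMOOTH
  have hGEN := Pool.Agent.K1H45.RC.t_GEN
  have hSHAD := Pool.Agent.K1H45.RC.t_SHAD
  have hNEWT := Pool.Agent.K1H33.RC.t_NEWT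
  have hDENSE := Pool.Agent.K1H99.RC.t_DENSE
  obtain ⟨N, hN, hred⟩ := Pool.Agent.K1H45.MZ.S_Red_holds K n S hS φ
  obtain ⟨i₁, j₁, hij⟩ := hc
  obtain ⟨sm, hsm⟩ := hsm
  obtain ⟨D, hD, hDs⟩ := hSMOOTH K (Fin (n + 1)) S r sm hsm
  set M : Polynomial K := r i₁ * (r j₁).derivative - r j₁ * (r i₁).derivative with hM
  have hM0 : M ≠ 0 := sub_ne_zero.2 hij
  refine ⟨N, hN, fun ι _ hne p _ hinj hp σ => ?_⟩
  have : Fintype ι := Fintype.ofFinite ι
  have hpp : ∀ i, ‖(p i : ℚ_[p i])‖ < 1 := fun i => Padic.norm_p_lt_one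
  have hσ : ∀ i, DenseRange (σ i) := fun i => denseRange_padic (σ i)
  choose F G hF hG hgood using fun i => hred ℚ_[p i] (p i) (hpp i) (σ i) (norm_of_not_dvd (hp i))
  intro s
  rw [mem_closure_iff_nhds]
  intro U hU
  -- boxes
  obtain ⟨U₁, hU₁, hU₁U⟩ : ∃ U₁ : ∀ i, Set ℚ_[p i],
      (∀ i, IsOpen (U₁ i) ∧ s i ∈ U₁ i) ∧ Set.pi Set.univ U₁ ⊆ U := by
    obtain ⟨O, hOU, hO, hxO⟩ := mem_nhds_iff.1 hU
    obtain ⟨I, u, hu, huO⟩ := isOpen_pi_iff.1 hO _ hxO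
    refine ⟨fun i => if i ∈ I then u i else Set.univ, fun i => ?_, fun y hy => ?_⟩
    · dsimp only
      split_ifs with h
      · exact hu i h
      · exact ⟨isOpen_univ, Set.mem_univ _⟩
    · apply hOU
      apply huO
      intro i hi
      have h1 := hy i (Set.mem_univ i)
      dsimp only at h1
      rwa [if_pos (Finset.mem_coe.1 hi)] at h1
  -- good parameters
  have hpar : ∀ i, ∃ s₀ : ℚ_[p i], s₀ ∈ U₁ i ∧ D.eval₂ (σ i) s₀ ≠ 0 ∧
      M.eval₂ (σ i) s₀ ≠ 0 := by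
    intro i
    obtain ⟨s₀, h3, h4⟩ := exists_near ((D * M).map (σ i))
      ((Polynomial.map_ne_zero_iff (σ i).injective).2 (mul_ne_zero hD hM0)) (s i)
      ((hU₁ i).1.mem_nhds (hU₁ i).2)
    rw [Polynomial.eval_map, Polynomial.eval₂_mul] at h4
    exact ⟨s₀, h3, left_ne_zero_of_mul h4, right_ne_zero_of_mul h4⟩
  choose s₀ hs₀U hs₀D hs₀M using hpar
  have himm : ∀ i, cv (σ i) r (s₀ i) i₁ * (r j₁).derivative.eval₂ (σ i) (s₀ i) -
      cv (σ i) r (s₀ i) j₁ * (r i₁).derivative.eval₂ (σ i) (s₀ i) ≠ 0 := by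
    intro i
    have h1 := hs₀M i
    rw [hM, Polynomial.eval₂_sub, Polynomial.eval₂_mul, Polynomial.eval₂_mul] at h1
    exact h1
  have hcv0 : ∀ i, cv (σ i) r (s₀ i) ≠ 0 := by
    intro i h0
    apply himm i
    rw [h0]
    simp
  have hproper : ∀ i, ProperSpace ℚ_[p i] := fun i =>
    Pool.Agent.W279.Tri.properSpace_of_denseRange (σ i) (hσ i)
  have hloc := fun i => @local_curve hSTRICT hZERO hFLAT hOPEN hTAN hGEN hSHAD hNEWT K _
    (Fin (n + 1)) _ _ ℚ_[p i] _ _ _ (hproper i) (σ i) (hσ i) S (p i) _ (hpp i) hS φ (F i) (G i)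
    (hF i) (hgood i) r hr hper (s₀ i) (hcv0 i) ⟨i₁, j₁, himm i⟩
    (hDs ℚ_[p i] (σ i) (s₀ i) (hs₀D i)) (U₁ i) ((hU₁ i).1.mem_nhds (hs₀U i))
  choose k hk s₂ hs₂ hloc using hloc
  refine ⟨s₂, hU₁U fun i _ => hs₂ i, ?_⟩
  set κ : ℕ := ∏ i, k i with hκ
  have hκ0 : 0 < κ := Finset.prod_pos fun i _ => hk i
  have hz := fun i => hloc i κ hκ0
  refine ⟨Set.pi Set.univ fun i => {x | (∀ q ∈ S, eval x (map (σ i) q) = 0) →
      ∀ ε > (0 : ℝ), ∃ s' t' : ℚ_[p i],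
        ‖t'‖ ≤ ‖(κ : ℚ_[p i])‖ ∧ ∃ δ > (0 : ℝ), ∀ s : K, ‖σ i s - s'‖ < δ →
          ∀ m : ℕ, ‖(m : ℚ_[p i]) - t'‖ < δ →
          (fun i => (r i).eval s) ≠ 0 ∧ (∃ w, Img φ (k i * m) (fun i => (r i).eval s) w) ∧
          ∀ w, Img φ (k i * m) (fun i => (r i).eval s) w →
            ∃ c : ℚ_[p i], c ≠ 0 ∧ ∀ j, ‖c * σ i (w j) - x j‖ < ε}, ?_, ?_⟩
  · exact set_pi_mem_nhds Set.finite_univ fun i _ => hz i
  · intro x hx hxS
    rw [Metric.mem_closure_iff]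
    intro ε hε
    choose s' t' ht' δ hδ hst using fun i => hx i (Set.mem_univ i) (hxS i) ε hε
    obtain ⟨δ₀, hδ₀, hδ₀i⟩ : ∃ δ₀ > (0 : ℝ), ∀ i, δ₀ ≤ δ i := by
      obtain ⟨i, hi⟩ := Finite.exists_min δ
      exact ⟨δ i, hδ i, hi⟩
    obtain ⟨hnat, hrat⟩ := hDENSE ι p hinj
    obtain ⟨q, hq⟩ := hrat s' δ₀ hδ₀
    -- the complementary factors
    have hκi : ∀ i, ∃ κ' : ℕ, κ = k i * κ' := fun i =>
      Finset.dvd_prod_of_mem k (Finset.mem_univ i)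
    choose κ' hκ' using hκi
    have hκ'0 : ∀ i, (κ' i : ℚ_[p i]) ≠ 0 := by
      intro i
      apply Nat.cast_ne_zero.2
      intro h0
      rw [hκ' i, h0, mul_zero] at hκ0
      exact lt_irrefl _ hκ0
    have hκ'n : ∀ i, 0 < ‖(κ' i : ℚ_[p i])‖ := fun i => norm_pos_iff.2 (hκ'0 i)
    obtain ⟨m, hm⟩ := hnat (fun i => t' i / (κ' i : ℚ_[p i])) (fun i => by
      rw [norm_div, div_le_one (hκ'n i)]
      refine (ht' i).trans ?_
      rw [hκ' i, Nat.cast_mul, norm_mul]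
      exact mul_le_of_le_one_left (norm_nonneg _) (IsUltrametricDist.norm_natCast_le_one _ _))
      δ₀ hδ₀
    have hqK : ∀ i, ‖σ i (q : K) - s' i‖ < δ i := fun i => by
      rw [map_ratCast]; exact (hq i).trans_le (hδ₀i i)
    have hmi : ∀ i, ‖((κ' i * m : ℕ) : ℚ_[p i]) - t' i‖ < δ i := by
      intro i
      have e : ((κ' i * m : ℕ) : ℚ_[p i]) - t' i =
          (κ' i : ℚ_[p i]) * ((m : ℚ_[p i]) - t' i / (κ' i : ℚ_[p i])) := by
        push_cast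
        have := hκ'0 i
        field_simp
      rw [e, norm_mul]
      calc _ ≤ 1 * ‖(m : ℚ_[p i]) - t' i / (κ' i : ℚ_[p i])‖ :=
            mul_le_mul_of_nonneg_right (IsUltrametricDist.norm_natCast_le_one _ _) (norm_nonneg _)
        _ < δ i := by rw [one_mul]; exact (hm i).trans_le (hδ₀i i)
    have hit : ∀ i, k i * (κ' i * m) = κ * m := fun i => by rw [← mul_assoc, ← hκ' i]
    -- the image exists over `K`
    obtain ⟨i₂⟩ := hne
    obtain ⟨h1, ⟨w, hw⟩, -⟩ := hst i₂ (q : K) (hqK i₂) (κ' i₂ * m) (hmi i₂)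
    rw [hit] at hw
    have hcw : ∀ i, ∃ c : ℚ_[p i], c ≠ 0 ∧ ∀ j, ‖c * σ i (w j) - x i j‖ < ε := by
      intro i
      obtain ⟨-, -, h2⟩ := hst i (q : K) (hqK i) (κ' i * m) (hmi i)
      rw [hit] at h2
      exact h2 w hw
    choose c hc0 hc using hcw
    have hyS : ∀ q' ∈ S, eval (fun i => (r i).eval (q : K)) q' = 0 := fun q' hq' => by
      rw [eval_cv', hr q' hq', Polynomial.eval_zero]
    obtain ⟨hw0, hwS⟩ := hw.mem h1 hyS
    refine ⟨fun i j => c i * σ i (w j), ⟨w, hw0, hwS, fun i => ⟨c i, hc0 i, rfl⟩⟩, ?_⟩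
    rw [dist_comm, dist_pi_lt_iff hε]
    intro i
    rw [dist_pi_lt_iff hε]
    intro j
    rw [dist_eq_norm]
    exact hc i j

end Pool.Agent.K1H47.RC
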