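import Pool.Agent.K1H47.RC.Stm2

set_option autoImplicit false

/-! The analytic family of the orbits through a curve parametrized by polynomials. -/

namespace Pool.Agent.K1H47.RC

open MvPolynomial Topology Filter Pool.Agent.H936R2 Pool.Agent.R847.Gap Pool.Agent.K1H69.MZ

section

variable {L : Type} [NormedField L] [IsUltrametricDist L]

omit [IsUltrametricDist L] in
lemma Sm.nonneg {C : ℝ} {a a' : L → L} (h : Sm C a a') : 0 ≤ C :=
  (norm_nonneg _).trans (h.1 0 (by simp))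

omit [IsUltrametricDist L] in
lemma Sm.mono {C C₁ : ℝ} {a a' : L → L} (h : Sm C a a') (hC : C ≤ C₁) : Sm C₁ a a' := by
  refine ⟨fun s hs => (h.1 s hs).trans hC, fun s hs => (h.2.1 s hs).trans hC,
    fun s s' s₁ h1 h2 h3 => (h.2.2 s s' s₁ h1 h2 h3).trans ?_⟩
  exact mul_le_mul_of_nonneg_right hC (by positivity)

lemma Sm.add {C : ℝ} {a a' b b' : L → L} (h : Sm C a a') (h' : Sm C b b') :
    Sm C (fun s => a s + b s) (fun s => a' s + b' s) := by
  refine ⟨fun s hs => ?_, fun s hs => ?_, fun s s' s₁ h1 h2 h3 => ?_⟩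
  · exact (IsUltrametricDist.norm_add_le_max _ _).trans (max_le (h.1 s hs) (h'.1 s hs))
  · exact (IsUltrametricDist.norm_add_le_max _ _).trans (max_le (h.2.1 s hs) (h'.2.1 s hs))
  · have e : a s + b s - (a s' + b s') - (a' s₁ + b' s₁) * (s - s') =
        (a s - a s' - a' s₁ * (s - s')) + (b s - b s' - b' s₁ * (s - s')) := by ring
    rw [e]
    exact (IsUltrametricDist.norm_add_le_max _ _).trans
      (max_le (h.2.2 s s' s₁ h1 h2 h3) (h'.2.2 s s' s₁ h1 h2 h3))

omit [IsUltrametricDist L] in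
lemma Sm.const {C : ℝ} (x : L) (hx : ‖x‖ ≤ C) : Sm C (fun _ => x) (fun _ => (0 : L)) := by
  have hC : 0 ≤ C := (norm_nonneg _).trans hx
  refine ⟨fun s _ => hx, fun s _ => by simpa using hC, fun s s' s₁ _ _ _ => ?_⟩
  simp only [sub_self, zero_mul, norm_zero]
  positivity

omit [IsUltrametricDist L] in
lemma Sm.mul_const {C D : ℝ} {a a' : L → L} (h : Sm C a a') (x : L) (hx : ‖x‖ ≤ D) :
    Sm (D * C) (fun s => x * a s) (fun s => x * a' s) := by
  have hC := h.nonneg
  have hD : 0 ≤ D := (norm_nonneg _).trans hx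
  refine ⟨fun s hs => ?_, fun s hs => ?_, fun s s' s₁ h1 h2 h3 => ?_⟩
  · rw [norm_mul]; exact mul_le_mul hx (h.1 s hs) (norm_nonneg _) hD
  · rw [norm_mul]; exact mul_le_mul hx (h.2.1 s hs) (norm_nonneg _) hD
  · have e : x * a s - x * a s' - x * a' s₁ * (s - s') = x * (a s - a s' - a' s₁ * (s - s')) := by
      ring
    rw [e, norm_mul, mul_assoc]
    exact mul_le_mul hx (h.2.2 s s' s₁ h1 h2 h3) (norm_nonneg _) hD

end

section

variable {L : Type} [NormedField L] [IsUltrametricDist L] [CharZero L]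
variable (p : ℕ) [hp : Fact p.Prime] (hpL : ‖(p : L)‖ < 1)

include hp hpL in
/-- rescaling a polynomial near a point -/
lemma exists_arc (P : Polynomial L) (s₀ : L) (x₀ : L) (hx : P.eval s₀ = x₀) (c₀ : L)
    (hc₀ : c₀ ≠ 0) : ∃ m₀ : ℕ, ∀ m, m₀ ≤ m → ∃ u : Polynomial (unitBall L),
      ∀ s : unitBall L, (p : L) ^ 2 * ((u.eval s : unitBall L) : L) =
        c₀⁻¹ * P.eval (s₀ + (p : L) ^ m * s) - c₀⁻¹ * x₀ := by
  classical
  have hp0 := norm_p_pos' (L := L) p
  have hpne : (p : L) ≠ 0 := Nat.cast_ne_zero.2 hp.out.ne_zero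
  set Q : Polynomial L := Polynomial.C c₀⁻¹ * (P.comp (Polynomial.C s₀ + Polynomial.X) -
    Polynomial.C x₀) with hQ
  have hQ0 : Q.coeff 0 = 0 := by
    rw [Polynomial.coeff_zero_eq_eval_zero, hQ]
    simp [Polynomial.eval_comp, hx]
  -- a bound for the coefficients
  obtain ⟨B, hB⟩ : ∃ B : ℝ, ∀ k, ‖Q.coeff k‖ ≤ B := by
    refine ⟨∑ k ∈ Q.support, ‖Q.coeff k‖, fun k => ?_⟩
    by_cases hk : k ∈ Q.support
    · exact Finset.single_le_sum (f := fun k => ‖Q.coeff k‖) (fun _ _ => norm_nonneg _) hk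
    · rw [Polynomial.notMem_support_iff.1 hk, norm_zero]
      exact Finset.sum_nonneg fun _ _ => norm_nonneg _
  obtain ⟨m₀, hm₀⟩ : ∃ m₀ : ℕ, ‖(p : L)‖ ^ m₀ * (B + 1) < ‖(p : L)‖ ^ 2 := by
    have hB0 : 0 < B + 1 := by
      have := (norm_nonneg _).trans (hB 0)
      linarith
    obtain ⟨m₀, hm₀⟩ := exists_pow_lt_of_lt_one
      (show 0 < ‖(p : L)‖ ^ 2 / (B + 1) by positivity) hpL
    exact ⟨m₀, (lt_div_iff₀ hB0).1 hm₀⟩
  refine ⟨m₀, fun m hm => ?_⟩
  set R : Polynomial L := Polynomial.C (((p : L) ^ 2)⁻¹) *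
    Q.comp (Polynomial.C ((p : L) ^ m) * Polynomial.X) with hR
  have hRk : ∀ k, ‖R.coeff k‖ ≤ 1 := by
    intro k
    rw [hR, Polynomial.coeff_C_mul, Polynomial.comp_C_mul_X_coeff, norm_mul, norm_inv, norm_pow,
      inv_mul_le_iff₀ (by positivity), mul_one, norm_mul]
    rcases Nat.eq_zero_or_pos k with rfl | hk
    · rw [hQ0, norm_zero, zero_mul]
      positivity
    · have h1 : ‖((p : L) ^ m) ^ k‖ ≤ ‖(p : L)‖ ^ m₀ := by
        rw [← pow_mul, norm_pow]
        apply pow_le_pow_of_le_one hp0.le hpL.le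
        exact hm.trans (Nat.le_mul_of_pos_right m hk)
      calc ‖Q.coeff k‖ * ‖((p : L) ^ m) ^ k‖ ≤ (B + 1) * ‖(p : L)‖ ^ m₀ := by
            apply mul_le_mul ((hB k).trans (by linarith)) h1 (norm_nonneg _)
            have := (norm_nonneg _).trans (hB 0)
            linarith
        _ ≤ ‖(p : L)‖ ^ 2 := by rw [mul_comm]; exact hm₀.le
  have hsub : (↑R.coeffs : Set L) ⊆ (unitBall L : Set L) := by
    intro y hy
    obtain ⟨k, -, rfl⟩ := Polynomial.mem_coeffs_iff.1 (Finset.mem_coe.1 hy)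
    exact hRk k
  refine ⟨R.toSubring (unitBall L) hsub, fun s => ?_⟩
  have h1 : (((R.toSubring (unitBall L) hsub).eval s : unitBall L) : L) = R.eval (s : L) := by
    have h2 := Polynomial.eval₂_at_apply (unitBall L).subtype s (p := R.toSubring (unitBall L) hsub)
    have h3 := Polynomial.map_toSubring R (unitBall L) hsub
    rw [← Polynomial.eval_map, h3] at h2
    exact h2.symm
  rw [h1, hR, hQ]
  simp only [Polynomial.eval_mul, Polynomial.eval_C, Polynomial.eval_comp, Polynomial.eval_sub,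
    Polynomial.eval_add, Polynomial.eval_X]
  field_simp

end

end Pool.Agent.K1H47.RC
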