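import Pool.Agent.K1H47.RC.Loc1
import Pool.Agent.K1H69.MZ.Fin

set_option autoImplicit false

/-! The analytic family of the orbits through a curve parametrized by polynomials. -/

namespace Pool.Agent.K1H47.RC

open MvPolynomial Topology Filter Pool.Agent.H936R2 Pool.Agent.R847.Gap Pool.Agent.K1H69.MZ

/-- **The family of the orbits.** -/
theorem family (hSHAD : S_SHAD) (hNEWT : S_NEWT) {K : Type} [Field K] {ι : Type} [Fintype ι]
    [DecidableEq ι] {L : Type} [NontriviallyNormedField L] [IsUltrametricDist L] [CharZero L]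
    [ProperSpace L] {σ : K →+* L} {S : Set (MvPolynomial ι K)}
    (p : ℕ) [hp : Fact p.Prime] (hpL : ‖(p : L)‖ < 1)
    (hS : ∀ s ∈ S, ∃ d : ℕ, s.IsHomogeneous d) {φ : Aut S}
    {F G : Sys L ι (Fin φ.m)} (h : Good (QS σ S) F G)
    (r : ι → Polynomial K) (hr : ∀ q ∈ S, ∀ s : L, eval₂ σ (fun i => (r i).eval₂ σ s) q = 0)
    (s₀ : L) (hx₀ : (fun i => (r i).eval₂ σ s₀) ≠ 0) :
    ∃ (c₀ : L) (m k : ℕ) (C C' : ι → ℕ → L → L), c₀ ≠ 0 ∧ 0 < k ∧ Fam ‖(p : L)‖ C C' ∧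
      ∀ s : L, ‖s‖ ≤ 1 → ∀ n : ℕ, ∃ z w : ι → unitBall L, Prim z ∧ z ∈ ZS (QS σ S) ∧
        (∀ i, (z i : L) = c₀⁻¹ * (r i).eval₂ σ (s₀ + (p : L) ^ m * s)) ∧ Prim w ∧
        (∀ i, (w i : L) = ev C s n i) ∧ Rp F (k * n) z w := by
  have hp0 := norm_p_pos' (L := L) p
  have hpne : (p : L) ≠ 0 := Nat.cast_ne_zero.2 hp.out.ne_zero
  set x₀ : ι → L := fun i => (r i).eval₂ σ s₀ with hx₀def
  obtain ⟨j₀, hj₀⟩ := Function.ne_iff.1 hx₀
  have : Nonempty ι := ⟨j₀⟩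
  obtain ⟨j, hj⟩ := Finite.exists_max (fun i => ‖x₀ i‖)
  have hxj : x₀ j ≠ 0 := by
    intro h0
    have h1 := hj j₀
    rw [h0, norm_zero] at h1
    exact hj₀ (norm_le_zero_iff.1 h1)
  set c₀ := x₀ j with hc₀
  have hz1 : ∀ i, ‖c₀⁻¹ * x₀ i‖ ≤ 1 := by
    intro i
    rw [norm_mul, norm_inv, ← div_eq_inv_mul, div_le_one (norm_pos_iff.2 hxj)]
    exact hj i
  let x : ι → unitBall L := fun i => ⟨c₀⁻¹ * x₀ i, hz1 i⟩
  have hxp : Prim x := by
    refine ⟨j, ?_⟩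
    change ‖c₀⁻¹ * x₀ j‖ = 1
    rw [← hc₀, inv_mul_cancel₀ hxj, norm_one]
  have hxZ : x ∈ ZS (QS σ S) :=
    mem_ZS_of_L hS (fun q hq => hr q hq s₀) (c := c₀⁻¹) fun i => rfl
  -- the arc
  have harc : ∀ i, ∃ m₀ : ℕ, ∀ m, m₀ ≤ m → ∃ u : Polynomial (unitBall L),
      ∀ s : unitBall L, (p : L) ^ 2 * ((u.eval s : unitBall L) : L) =
        c₀⁻¹ * ((r i).map σ).eval (s₀ + (p : L) ^ m * s) - c₀⁻¹ * x₀ i := fun i =>
    exists_arc p hpL ((r i).map σ) s₀ (x₀ i) (Polynomial.eval_map _ _) c₀ hxj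
  choose m₀ hm₀ using harc
  set m := ∑ i, m₀ i with hm
  have hu : ∀ i, ∃ u : Polynomial (unitBall L),
      ∀ s : unitBall L, (p : L) ^ 2 * ((u.eval s : unitBall L) : L) =
        c₀⁻¹ * ((r i).map σ).eval (s₀ + (p : L) ^ m * s) - c₀⁻¹ * x₀ i := fun i =>
    hm₀ i m (Finset.single_le_sum (f := m₀) (fun _ _ => Nat.zero_le _) (Finset.mem_univ i))
  choose u hu using hu
  have hdsc : ∀ (s : unitBall L) i, ((dsc p x (fun i => (u i).eval s) i : unitBall L) : L) =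
      c₀⁻¹ * (r i).eval₂ σ (s₀ + (p : L) ^ m * s) := by
    intro s i
    have h1 : ((dsc p x (fun i => (u i).eval s) i : unitBall L) : L) =
        c₀⁻¹ * x₀ i + (p : L) ^ 2 * (((u i).eval s : unitBall L) : L) := by
      simp only [dsc]; push_cast; rfl
    rw [h1, hu i s, Polynomial.eval_map]
    ring
  have harcZ : ∀ s, dsc p x (fun i => (u i).eval s) ∈ ZS (QS σ S) := fun s =>
    mem_ZS_of_L hS (fun q hq => hr q hq (s₀ + (p : L) ^ m * s)) (c := c₀⁻¹) (hdsc s)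
  -- the window
  obtain ⟨k, H, hk, hI, horb⟩ := win p hpL h hxZ hxp
  obtain ⟨a, a', ha, hav⟩ := hSHAD L p hpL ι (Fin φ.m) (Fin φ.m) (QS σ S) F G h x hxp k H
    ⟨hI, horb⟩ u harcZ
  choose c c' hc hcv using fun i => hNEWT L p hpL (a i) (a' i) (ha i)
  refine ⟨c₀, m, k, fun i k s => (if k = 0 then (x i : L) else 0) + (p : L) ^ 2 * c i k s,
    fun i k s => 0 + (p : L) ^ 2 * c' i k s, hxj, hk, fun i k => ?_, fun s hs n => ?_⟩
  · have h1 : Sm (‖(p : L)‖ ^ k) (fun s => (p : L) ^ 2 * c i k s)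
        (fun s => (p : L) ^ 2 * c' i k s) := by
      refine ((hc i k).mul_const ((p : L) ^ 2) (D := 1) ?_).mono (by rw [one_mul])
      rw [norm_pow]
      exact pow_le_one₀ hp0.le hpL.le
    refine Sm.add (Sm.const _ ?_) h1
    split_ifs with h0
    · rw [h0, pow_zero]; exact unitBall_norm_le (x i)
    · rw [norm_zero]; positivity
  · obtain ⟨v, hv, hRp⟩ := hav ⟨s, hs⟩ n
    refine ⟨_, dsc p x v, prim_add p hpL hxp, harcZ ⟨s, hs⟩, hdsc ⟨s, hs⟩, prim_add p hpL hxp,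
      fun i => ?_, hRp⟩
    have h1 := (hcv i s hs n).mul_left ((p : L) ^ 2)
    have h2 : HasSum (fun k : ℕ => (if k = 0 then (x i : L) else 0) * (n : L) ^ k)
        ((x i : L) * (n : L) ^ 0) := by
      have h3 := hasSum_single (f := fun k : ℕ => (if k = 0 then (x i : L) else 0) * (n : L) ^ k) 0
        (fun k hk => by simp [hk])
      simpa using h3
    have h3 := h2.add h1
    have h4 : ev (fun i k s => (if k = 0 then (x i : L) else 0) + (p : L) ^ 2 * c i k s) s n i =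
        (x i : L) * (n : L) ^ 0 +
          (p : L) ^ 2 * ∑ j ∈ Finset.range (n + 1), (n.choose j : L) * a i j s := by
      rw [← h3.tsum_eq]
      apply tsum_congr
      intro k
      ring
    rw [h4]
    have h5 : ((dsc p x v i : unitBall L) : L) = (x i : L) + (p : L) ^ 2 * (v i : L) := by
      simp only [dsc]; push_cast; rfl
    rw [h5, hv i, pow_zero, mul_one]

end Pool.Agent.K1H47.RC
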