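import Pool.Agent.K1H47.RC.Loc3

set_option autoImplicit false

/-! The local theorem. -/

namespace Pool.Agent.K1H47.RC

open MvPolynomial Topology Filter Pool.Agent.H936R2 Pool.Agent.R847.Gap Pool.Agent.K1H69.MZ

/-- The values of the curve. -/
noncomputable def cv {K L : Type} [Field K] [Field L] {ι : Type} (σ : K →+* L)
    (r : ι → Polynomial K) (s : L) : ι → L := fun i => (r i).eval₂ σ s

lemma eval_cv {K L : Type} [Field K] [Field L] {ι : Type} (σ : K →+* L)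
    (r : ι → Polynomial K) (s : L) (W : MvPolynomial ι K) :
    eval (cv σ r s) (map σ W) = (aeval r W).eval₂ σ s := by
  rw [eval_map]
  have h : eval₂Hom σ (cv σ r s) = (Polynomial.eval₂RingHom σ s).comp
      (aeval r : MvPolynomial ι K →ₐ[K] Polynomial K).toRingHom := by
    apply MvPolynomial.ringHom_ext
    · intro a
      simp
    · intro i
      simp [cv]
  exact RingHom.congr_fun h W

lemma eval_cv' {K : Type} [Field K] {ι : Type} (r : ι → Polynomial K) (s : K)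
    (W : MvPolynomial ι K) :
    eval (fun i => (r i).eval s) W = (aeval r W).eval s := by
  have h := eval_cv (RingHom.id K) r s W
  rw [MvPolynomial.map_id] at h
  exact h

section

variable {K : Type} [Field K] {ι : Type} [Fintype ι] {L : Type} [NontriviallyNormedField L]
  [IsUltrametricDist L] {σ : K →+* L}

omit [Fintype ι] in
lemma hasDerivAt_cv (r : ι → Polynomial K) (s₀ c : L) (i : ι) (s : L) :
    HasDerivAt (fun s => cv σ r (s₀ + c * s) i) (c * (r i).derivative.eval₂ σ (s₀ + c * s)) s := by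
  have h1 : HasDerivAt (fun s : L => s₀ + c * s) c s := by
    simpa using ((hasDerivAt_id s).const_mul c).const_add s₀
  have h2 := (((r i).map σ).hasDerivAt (s₀ + c * s)).comp s h1
  have e1 : (fun s => cv σ r (s₀ + c * s) i) = (fun x => ((r i).map σ).eval x) ∘
      fun s : L => s₀ + c * s := by
    funext s
    simp [cv, Polynomial.eval_map]
  rw [e1]
  refine h2.congr_deriv ?_
  rw [Polynomial.derivative_map, Polynomial.eval_map, mul_comm]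

end

/-- **The local theorem.** -/
theorem local_main (hSTRICT : S_STRICT) (hZERO : S_ZERO) (hFLAT : S_FLAT) (hOPEN : S_OPEN)
    (hTAN : S_TAN) (hGEN : S_GEN) (hSHAD : S_SHAD) (hNEWT : S_NEWT)
    {K : Type} [Field K] {ι : Type} [Fintype ι]
    [DecidableEq ι] {L : Type} [NontriviallyNormedField L] [IsUltrametricDist L] [CharZero L]
    [ProperSpace L] {σ : K →+* L} (hσ : DenseRange σ) {S : Set (MvPolynomial ι K)}
    (p : ℕ) [hp : Fact p.Prime] (hpL : ‖(p : L)‖ < 1)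
    (hS : ∀ s ∈ S, ∃ d : ℕ, s.IsHomogeneous d) {φ : Aut S}
    {F G : Sys L ι (Fin φ.m)} (hF : Lifts σ φ.f F) (h : Good (QS σ S) F G)
    (r : ι → Polynomial K) (hr : ∀ q ∈ S, aeval r q = 0)
    (hper : ∀ k : ℕ, 0 < k → ∃ (W : MvPolynomial ι K) (e : ℕ), W.IsHomogeneous e ∧
      aeval r W = 0 ∧ ∃ s : K, (fun i => (r i).eval s) ≠ 0 ∧
        ∃ w, Img φ k (fun i => (r i).eval s) w ∧ eval w W ≠ 0)
    (s₀ : L) (hx₀ : cv σ r s₀ ≠ 0)
    (him : ∃ i j, cv σ r s₀ i * (r j).derivative.eval₂ σ s₀ -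
      cv σ r s₀ j * (r i).derivative.eval₂ σ s₀ ≠ 0)
    (htan : Module.finrank L (tanSp (MvPolynomial.map σ '' S) (cv σ r s₀)) ≤ 3)
    (U : Set (ι → L)) (hU : U ∈ 𝓝 (cv σ r s₀)) :
    ∃ k : ℕ, 0 < k ∧ ∀ κ : ℕ, 0 < κ → ∃ z ∈ U, (∀ q ∈ S, eval z (map σ q) = 0) ∧
      ∀ᶠ x in 𝓝 z, (∀ q ∈ S, eval x (map σ q) = 0) → ∀ ε > (0 : ℝ), ∃ s' t' : L,
        ‖t'‖ ≤ ‖(κ : L)‖ ∧ ∃ δ > (0 : ℝ), ∀ s : K, ‖σ s - s'‖ < δ → ∀ n : ℕ, ‖(n : L) - t'‖ < δ →
          (fun i => (r i).eval s) ≠ 0 ∧ (∃ w, Img φ (k * n) (fun i => (r i).eval s) w) ∧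
          ∀ w, Img φ (k * n) (fun i => (r i).eval s) w →
            ∃ c : L, c ≠ 0 ∧ ∀ i, ‖c * σ (w i) - x i‖ < ε := by
  have hp0 := norm_p_pos' (L := L) p
  have hpne : (p : L) ≠ 0 := Nat.cast_ne_zero.2 hp.out.ne_zero
  -- polynomial identities along the curve
  have hcvW : ∀ W : MvPolynomial ι K, aeval r W = 0 → ∀ s : L, eval (cv σ r s) (map σ W) = 0 := by
    intro W hW s
    rw [eval_cv, hW, Polynomial.eval₂_zero]
  have hcvK : ∀ q ∈ S, ∀ s : K, eval (fun i => (r i).eval s) q = 0 := fun q hq s => by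
    rw [eval_cv', hr q hq, Polynomial.eval_zero]
  obtain ⟨c₀, m, k, C, C', hc₀, hk, hFam, hfam⟩ := family hSHAD hNEWT p hpL hS h r
    (fun q hq s => by
      have h1 := hcvW q (hr q hq) s
      rw [eval_map] at h1
      exact h1) s₀ hx₀
  have hpm : (p : L) ^ m ≠ 0 := pow_ne_zero _ hpne
  -- the link with the `K`-points
  have hlink : ∀ (s' : K) (s : L), ‖s‖ ≤ 1 → σ s' = s₀ + (p : L) ^ m * s → ∀ n : ℕ,
      (fun i => (r i).eval s') ≠ 0 ∧ (∃ v, Img φ (k * n) (fun i => (r i).eval s') v) ∧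
      ∀ v, Img φ (k * n) (fun i => (r i).eval s') v →
        ∃ c : L, c ≠ 0 ∧ ∀ i, ev C s n i = c * σ (v i) := by
    intro s' s hs hs' n
    obtain ⟨z, w, hzp, hz, hzi, hwp, hwi, hRp⟩ := hfam s hs n
    have hPr : Pr σ z (fun i => (r i).eval s') := by
      refine ⟨c₀⁻¹, inv_ne_zero hc₀, fun i => ?_⟩
      rw [hzi i, ← hs', Polynomial.eval₂_at_apply]
    obtain ⟨h1, h2⟩ := link hF h hzp hz hwp hRp (fun q hq => hcvK q hq s') hPr
    refine ⟨hPr.ne_zero hzp, h1, fun v hv => ?_⟩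
    obtain ⟨c, hc, h3⟩ := h2 v hv
    exact ⟨c, hc, fun i => by rw [← hwi i, h3 i]⟩
  -- the equations
  have hZ : ∀ q ∈ S, ∀ s t : L, ‖s‖ ≤ 1 → ‖t‖ ≤ 1 → eval (ev C s t) (map σ q) = 0 := by
    intro q hq s t hs ht
    refine hZERO L ι ‖(p : L)‖ hp0.le hpL C C' hFam (map σ q) s hs _
      (acc_multiples p hpL one_pos one_pos) ?_ t ht
    rintro _ ⟨n, -, rfl, -⟩ -
    obtain ⟨z, w, hzp, hz, -, -, hwi, hRp⟩ := hfam s hs n
    have h1 := eval_of_mem_ZS p hpL (Rp.mem h hz hzp hRp).1 hq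
    have h2 : (fun i => (w i : L)) = ev C s n := funext hwi
    rwa [h2] at h1
  -- the time zero
  have hC0 : ∀ s : L, ‖s‖ ≤ 1 → ∃ l : L, l ≠ 0 ∧
      ∀ i, C i 0 s = l * cv σ r (s₀ + (p : L) ^ m * s) i := by
    intro s hs
    obtain ⟨z, w, hzp, hz, hzi, hwp, hwi, hRp⟩ := hfam s hs 0
    rw [Nat.mul_zero] at hRp
    obtain ⟨c, hc, hw⟩ := hRp.2.eq_smul hzp hwp
    have hcne : (c : L) ≠ 0 := by
      intro h0
      unfold nm at hc
      rw [h0, norm_zero] at hc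
      exact zero_ne_one hc
    refine ⟨(c : L) * c₀⁻¹, mul_ne_zero hcne (inv_ne_zero hc₀), fun i => ?_⟩
    have h1 := hwi i
    rw [Nat.cast_zero, ev_zero] at h1
    rw [← h1, hw]
    push_cast
    rw [hzi i, mul_assoc]
    rfl
  -- immersion
  obtain ⟨ρ₁, hρ₁, himm⟩ : ∃ ρ₁ > (0 : ℝ), ∀ s : L, ‖s‖ < ρ₁ →
      ∃ i j, cv σ r (s₀ + (p : L) ^ m * s) i *
        ((p : L) ^ m * (r j).derivative.eval₂ σ (s₀ + (p : L) ^ m * s)) -
        cv σ r (s₀ + (p : L) ^ m * s) j *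
        ((p : L) ^ m * (r i).derivative.eval₂ σ (s₀ + (p : L) ^ m * s)) ≠ 0 := by
    obtain ⟨i, j, hij⟩ := him
    have hcont : Continuous fun s : L => cv σ r (s₀ + (p : L) ^ m * s) i *
        ((p : L) ^ m * (r j).derivative.eval₂ σ (s₀ + (p : L) ^ m * s)) -
        cv σ r (s₀ + (p : L) ^ m * s) j *
        ((p : L) ^ m * (r i).derivative.eval₂ σ (s₀ + (p : L) ^ m * s)) := by
      have h1 : ∀ P : Polynomial K, Continuous fun s : L => P.eval₂ σ (s₀ + (p : L) ^ m * s) := by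
        intro P
        have h2 : (fun s : L => P.eval₂ σ (s₀ + (p : L) ^ m * s)) =
            fun s : L => (P.map σ).eval (s₀ + (p : L) ^ m * s) := by
          funext s; rw [Polynomial.eval_map]
        rw [h2]
        exact (P.map σ).continuous.comp (by fun_prop)
      have h3 := h1 (r i)
      have h4 := h1 (r j)
      have h5 := h1 (r i).derivative
      have h6 := h1 (r j).derivative
      simp only [cv]
      fun_prop
    have h1 : ∀ᶠ s in 𝓝 (0 : L), cv σ r (s₀ + (p : L) ^ m * s) i *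
        ((p : L) ^ m * (r j).derivative.eval₂ σ (s₀ + (p : L) ^ m * s)) -
        cv σ r (s₀ + (p : L) ^ m * s) j *
        ((p : L) ^ m * (r i).derivative.eval₂ σ (s₀ + (p : L) ^ m * s)) ≠ 0 := by
      apply hcont.continuousAt.eventually_ne
      rw [mul_zero, add_zero]
      intro h0
      apply mul_ne_zero hpm hij
      linear_combination h0
    obtain ⟨ρ₁, hρ₁, h2⟩ := Metric.eventually_nhds_iff.1 h1
    exact ⟨ρ₁, hρ₁, fun s hs => ⟨i, j, h2 (by rwa [dist_zero_right])⟩⟩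
  have himmC : ∀ s : L, ‖s‖ < ρ₁ → ‖s‖ < 1 →
      ∃ i j, C i 0 s * C' j 0 s - C j 0 s * C' i 0 s ≠ 0 := fun s hs hs1 =>
    immersed hFam (fun i s => cv σ r (s₀ + (p : L) ^ m * s) i)
      (fun i s => (p : L) ^ m * (r i).derivative.eval₂ σ (s₀ + (p : L) ^ m * s))
      (fun i s => hasDerivAt_cv r s₀ _ i s) hC0 hs1 (himm s hs)
  -- the scale
  obtain ⟨l₀, hl₀, hl₀i⟩ := hC0 0 (by simp)
  rw [mul_zero, add_zero] at hl₀i
  set μ : L := l₀⁻¹ with hμ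
  have hμ0 : μ ≠ 0 := inv_ne_zero hl₀
  have hx₀μ : μ • ev C 0 0 = cv σ r s₀ := by
    funext i
    rw [Pi.smul_apply, ev_zero, hl₀i i, smul_eq_mul, hμ, inv_mul_cancel_left₀ hl₀]
  have hcont : ∀ s₁ t₁ : L, ‖s₁‖ ≤ 1 → ‖t₁‖ ≤ 1 →
      ContinuousAt (fun q : L × L => ev C q.1 q.2) (s₁, t₁) := by
    intro s₁ t₁ h1 h2
    obtain ⟨D, -, hD⟩ := hSTRICT L ι ‖(p : L)‖ hp0.le hpL C C' hFam s₁ t₁ h1 h2
    exact hD.continuousAt
  have hSL : ∀ q ∈ MvPolynomial.map σ '' S, ∃ d : ℕ, q.IsHomogeneous d := by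
    rintro _ ⟨q, hq, rfl⟩
    obtain ⟨d, hd⟩ := hS q hq
    exact ⟨d, hd.map σ⟩
  obtain ⟨ρ₂, hρ₂, hnear⟩ : ∃ ρ₂ > (0 : ℝ), ∀ s t : L, ‖s‖ < ρ₂ → ‖t‖ < ρ₂ →
      μ • ev C s t ∈ U ∧
        Module.finrank L (tanSp (MvPolynomial.map σ '' S) (μ • ev C s t)) ≤ 3 := by
    have h1 : ContinuousAt (fun q : L × L => μ • ev C q.1 q.2) (0, 0) :=
      (hcont 0 0 (by simp) (by simp)).const_smul μ
    have h2 := hTAN L ι (MvPolynomial.map σ '' S) (cv σ r s₀) htan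
    have h3 : ∀ᶠ y in 𝓝 (cv σ r s₀), y ∈ U ∧
        Module.finrank L (tanSp (MvPolynomial.map σ '' S) y) ≤ 3 :=
      Filter.Eventually.and hU h2
    rw [← hx₀μ] at h3
    obtain ⟨ρ₂, hρ₂, h4⟩ := Metric.eventually_nhds_iff.1 (h1.eventually h3)
    refine ⟨ρ₂, hρ₂, fun s t hs ht => ?_⟩
    have h5 : dist ((s, t) : L × L) (0, 0) < ρ₂ := by
      rw [Prod.dist_eq, dist_zero_right, dist_zero_right]
      exact max_lt hs ht
    exact h4 h5
  refine ⟨k, hk, fun κ hκ => ?_⟩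
  have hκ0 : 0 < ‖(κ : L)‖ := norm_pos_iff.2 (Nat.cast_ne_zero.2 hκ.ne')
  set ρ : ℝ := min 1 (min ρ₁ ρ₂) with hρ
  have hρ0 : 0 < ρ := lt_min one_pos (lt_min hρ₁ hρ₂)
  have hρ1 : ρ ≤ 1 := min_le_left _ _
  have hρρ₁ : ρ ≤ ρ₁ := (min_le_right _ _).trans (min_le_left _ _)
  have hρρ₂ : ρ ≤ ρ₂ := (min_le_right _ _).trans (min_le_right _ _)
  -- a point of rank three
  obtain ⟨s₁, t₁, hs₁, ⟨n₁, hn₁, rfl, ht₁⟩, i, j, l, hmin⟩ : ∃ s₁ t₁ : L, ‖s₁‖ < ρ ∧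
      (∃ n : ℕ, κ ∣ n ∧ t₁ = n ∧ ‖t₁‖ < ρ) ∧ ∃ i j l,
        mnr (ev C s₁ t₁) (ev C' s₁ t₁) (evt C s₁ t₁) i j l ≠ 0 := by
    by_contra hcon
    push Not at hcon
    obtain ⟨W, e, hWh, hWr, s', hs', w', hw', hW'⟩ := hper k hk
    apply hW'
    refine hGEN K ι S φ r hcvK k W e hWh ?_ s' hs' w' hw'
    refine (infinite_near hσ s₀ (show 0 < ‖(p : L) ^ m‖ * ρ by positivity)).mono ?_
    intro y hy
    set s : L := (σ y - s₀) / (p : L) ^ m with hs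
    have hs1 : ‖s‖ < ρ := by
      rw [hs, norm_div, div_lt_iff₀ (norm_pos_iff.2 hpm), mul_comm]
      exact hy
    have hpar : σ y = s₀ + (p : L) ^ m * s := by
      rw [hs]
      field_simp
      ring
    obtain ⟨h1, ⟨v, hv⟩, h3⟩ := hlink y s (hs1.le.trans hρ1) hpar 1
    rw [Nat.mul_one] at hv h3
    refine ⟨h1, v, hv, ?_⟩
    obtain ⟨c, hc, h4⟩ := h3 v hv
    rw [← eval_of_smul hWh hc h4]
    refine hFLAT L ι ‖(p : L)‖ hp0.le hpL C C' hFam ρ hρ0 hρ1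
      (fun s hs => himmC s (hs.trans_le hρρ₁) (hs.trans_le hρ1)) _
      (acc_multiples p hpL hκ hρ0) (fun s hs t ht _ i j l => hcon s t hs ht i j l)
      (map σ W) e (hWh.map σ) (fun s hs => ?_) s _ hs1 ?_
    · obtain ⟨l, hl, h5⟩ := hC0 s (hs.le.trans hρ1)
      have h6 : (fun i => C i 0 s) = fun i => l * cv σ r (s₀ + (p : L) ^ m * s) i := funext h5
      rw [h6, eval_hom (hWh.map σ), hcvW W hWr, mul_zero]
    · rw [Nat.cast_one, norm_one]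
  have hs₁1 : ‖s₁‖ < 1 := hs₁.trans_le hρ1
  have ht₁1 : ‖(n₁ : L)‖ < 1 := ht₁.trans_le hρ1
  obtain ⟨hz1, hz2⟩ := hnear s₁ n₁ (hs₁.trans_le hρρ₂) (ht₁.trans_le hρρ₂)
  refine ⟨μ • ev C s₁ n₁, hz1, fun q hq => ?_, ?_⟩
  · obtain ⟨d, hd⟩ := hS q hq
    have h1 := eval_hom (hd.map σ) μ (ev C s₁ n₁)
    have h2 : (μ • ev C s₁ n₁) = fun i => μ * ev C s₁ n₁ i := rfl
    rw [h2, h1, hZ q hq s₁ n₁ hs₁1.le ht₁1.le, mul_zero]
  obtain ⟨D, hD, hstr⟩ := hSTRICT L ι ‖(p : L)‖ hp0.le hpL C C' hFam s₁ n₁ hs₁1.le ht₁1.le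
  have hlt : ∀ᶠ b : L × L in 𝓝 (s₁, (n₁ : L)), ‖b.1‖ < 1 ∧ ‖b.2‖ < 1 := by
    have h1 : ContinuousAt (fun b : L × L => ‖b.1‖) (s₁, (n₁ : L)) := by fun_prop
    have h2 : ContinuousAt (fun b : L × L => ‖b.2‖) (s₁, (n₁ : L)) := by fun_prop
    exact (h1.eventually_lt continuousAt_const hs₁1).and
      (h2.eventually_lt continuousAt_const ht₁1)
  have hN : {b : L × L | (‖b.1‖ < 1 ∧ ‖b.2‖ < 1) ∧ ‖b.2 - (n₁ : L)‖ < ‖(κ : L)‖} ∈
      𝓝 (s₁, (n₁ : L)) := by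
    have h2 : ContinuousAt (fun b : L × L => ‖b.2 - (n₁ : L)‖) (s₁, (n₁ : L)) := by fun_prop
    exact hlt.and (h2.eventually_lt continuousAt_const (by simpa using hκ0))
  have hop := hOPEN L ι (MvPolynomial.map σ '' S) hSL (fun q : L × L => ev C q.1 q.2)
    (s₁, (n₁ : L)) D hstr (hlt.mono fun b hb => by
      rintro _ ⟨q, hq, rfl⟩
      exact hZ q hq b.1 b.2 hb.1.le hb.2.le)
    ⟨i, j, l, by
      have h1 : D (1, 0) = ev C' s₁ n₁ := by rw [hD, one_smul, zero_smul, add_zero]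
      have h2 : D (0, 1) = evt C s₁ n₁ := by rw [hD, one_smul, zero_smul, zero_add]
      rw [h1, h2]
      exact hmin⟩ (by rwa [tanSp_smul hSL hμ0] at hz2) _ hN
  have htend : Tendsto (fun x : ι → L => μ⁻¹ • x) (𝓝 (μ • ev C s₁ n₁)) (𝓝 (ev C s₁ n₁)) := by
    have h1 : ContinuousAt (fun x : ι → L => μ⁻¹ • x) (μ • ev C s₁ n₁) :=
      (continuous_const_smul μ⁻¹).continuousAt
    have h2 : μ⁻¹ • μ • ev C s₁ n₁ = ev C s₁ n₁ := by
      rw [smul_smul, inv_mul_cancel₀ hμ0, one_smul]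
    have h3 : Tendsto (fun x : ι → L => μ⁻¹ • x) (𝓝 (μ • ev C s₁ n₁))
      (𝓝 (μ⁻¹ • μ • ev C s₁ n₁)) := h1
    rwa [h2] at h3
  filter_upwards [htend.eventually hop] with x hx hxS ε hε
  obtain ⟨l', hl', b, ⟨⟨hb1, hb2⟩, hb3⟩, hxb⟩ := hx (by
    rintro _ ⟨q, hq, rfl⟩
    obtain ⟨d, hd⟩ := hS q hq
    have h1 := eval_hom (hd.map σ) μ⁻¹ x
    have h2 : (μ⁻¹ • x) = fun i => μ⁻¹ * x i := rfl
    rw [h2, h1, hxS q hq, mul_zero])
  have hxb' : x = (μ * l') • ev C b.1 b.2 := by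
    have h1 : μ • (μ⁻¹ • x) = x := by rw [smul_smul, mul_inv_cancel₀ hμ0, one_smul]
    rw [← h1, hxb, smul_smul]
  have hml : μ * l' ≠ 0 := mul_ne_zero hμ0 hl'
  refine ⟨s₀ + (p : L) ^ m * b.1, b.2, ?_, ?_⟩
  · have h1 : b.2 = (b.2 - (n₁ : L)) + (n₁ : L) := by ring
    rw [h1]
    refine (IsUltrametricDist.norm_add_le_max _ _).trans (max_le hb3.le ?_)
    obtain ⟨n', rfl⟩ := hn₁
    rw [Nat.cast_mul, norm_mul]
    exact mul_le_of_le_one_right (norm_nonneg _) (IsUltrametricDist.norm_natCast_le_one L _)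
  · have h1 : ContinuousAt (fun q : L × L => (μ * l') • ev C q.1 q.2) (b.1, b.2) :=
      (hcont b.1 b.2 hb1.le hb2.le).const_smul (μ * l')
    obtain ⟨δ₁, hδ₁, h2⟩ := Metric.continuousAt_iff.1 h1 ε hε
    have hpm' : 0 < ‖(p : L) ^ m‖ := norm_pos_iff.2 hpm
    have hpm1 : ‖(p : L) ^ m‖ ≤ 1 := by
      rw [norm_pow]; exact pow_le_one₀ hp0.le hpL.le
    have hmin1 : 0 < min δ₁ 1 := lt_min hδ₁ one_pos
    refine ⟨‖(p : L) ^ m‖ * min δ₁ 1, by positivity, fun s hs n hn => ?_⟩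
    set s'' : L := (σ s - s₀) / (p : L) ^ m with hs''
    have hpar : σ s = s₀ + (p : L) ^ m * s'' := by
      rw [hs'']
      field_simp
      ring
    have h3 : ‖s'' - b.1‖ < min δ₁ 1 := by
      have h4 : (p : L) ^ m * (s'' - b.1) = σ s - (s₀ + (p : L) ^ m * b.1) := by
        rw [hpar]; ring
      have h5 : ‖(p : L) ^ m‖ * ‖s'' - b.1‖ < ‖(p : L) ^ m‖ * min δ₁ 1 := by
        rw [← norm_mul, h4]; exact hs
      exact lt_of_mul_lt_mul_left h5 hpm'.le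
    have h6 : ‖s''‖ ≤ 1 := by
      have h7 : s'' = (s'' - b.1) + b.1 := by ring
      rw [h7]
      exact (IsUltrametricDist.norm_add_le_max _ _).trans
        (max_le (h3.le.trans (min_le_right _ _)) hb1.le)
    have h8 : ‖(n : L) - b.2‖ < δ₁ := by
      refine hn.trans_le ?_
      calc ‖(p : L) ^ m‖ * min δ₁ 1 ≤ 1 * min δ₁ 1 :=
            mul_le_mul_of_nonneg_right hpm1 hmin1.le
        _ ≤ δ₁ := by rw [one_mul]; exact min_le_left _ _
    obtain ⟨g1, g2, g3⟩ := hlink s s'' h6 hpar n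
    refine ⟨g1, g2, fun w hw => ?_⟩
    obtain ⟨c, hc, h9⟩ := g3 w hw
    refine ⟨μ * l' * c, mul_ne_zero hml hc, fun i => ?_⟩
    have h10 : dist ((s'', (n : L)) : L × L) b < δ₁ := by
      rw [Prod.dist_eq, dist_eq_norm, dist_eq_norm]
      exact max_lt (h3.trans_le (min_le_left _ _)) h8
    have h11 := h2 h10
    rw [dist_eq_norm] at h11
    have h12 := (norm_le_pi_norm _ i).trans_lt h11
    simp only [Pi.sub_apply, Pi.smul_apply, smul_eq_mul] at h12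
    rw [hxb', mul_assoc, ← h9 i]
    exact h12

end Pool.Agent.K1H47.RC
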