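import Pool.Agent.K1H47.RC.Loc4

set_option autoImplicit false

/-! The local theorem at the points of the curve. -/

namespace Pool.Agent.K1H47.RC

open MvPolynomial Topology Filter Pool.Agent.H936R2 Pool.Agent.R847.Gap Pool.Agent.K1H69.MZ

/-- **The local theorem.** -/
theorem local_curve (hSTRICT : S_STRICT) (hZERO : S_ZERO) (hFLAT : S_FLAT) (hOPEN : S_OPEN)
    (hTAN : S_TAN) (hGEN : S_GEN) (hSHAD : S_SHAD) (hNEWT : S_NEWT)
    {K : Type} [Field K] {ι : Type} [Fintype ι]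
    [DecidableEq ι] {L : Type} [NontriviallyNormedField L] [IsUltrametricDist L] [CharZero L]
    [ProperSpace L] {σ : K →+* L} (hσ : DenseRange σ) {S : Set (MvPolynomial ι K)}
    (p : ℕ) [hp : Fact p.Prime] (hpL : ‖(p : L)‖ < 1)
    (hS : ∀ s ∈ S, ∃ d : ℕ, s.IsHomogeneous d) {φ : Aut S}
    {F G : Sys L ι (Fin φ.m)} (hF : Lifts σ φ.f F) (h : Good (QS σ S) F G)
    (r : ι → Polynomial K) (hr : ∀ q ∈ S, aeval r q = 0)
    (hper : ∀ k : ℕ, 0 < k → ∃ (W : MvPolynomial ι K) (e : ℕ), W.IsHomogeneous e ∧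
      aeval r W = 0 ∧ ∃ s : K, (fun i => (r i).eval s) ≠ 0 ∧
        ∃ w, Img φ k (fun i => (r i).eval s) w ∧ eval w W ≠ 0)
    (s₀ : L) (hx₀ : cv σ r s₀ ≠ 0)
    (him : ∃ i j, cv σ r s₀ i * (r j).derivative.eval₂ σ s₀ -
      cv σ r s₀ j * (r i).derivative.eval₂ σ s₀ ≠ 0)
    (htan : Module.finrank L (tanSp (MvPolynomial.map σ '' S) (cv σ r s₀)) ≤ 3)
    (A : Set L) (hA : A ∈ 𝓝 s₀) :
    ∃ k : ℕ, 0 < k ∧ ∃ s₂ ∈ A, ∀ κ : ℕ, 0 < κ →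
      ∀ᶠ x in 𝓝 (cv σ r s₂), (∀ q ∈ S, eval x (map σ q) = 0) → ∀ ε > (0 : ℝ), ∃ s' t' : L,
        ‖t'‖ ≤ ‖(κ : L)‖ ∧ ∃ δ > (0 : ℝ), ∀ s : K, ‖σ s - s'‖ < δ → ∀ n : ℕ, ‖(n : L) - t'‖ < δ →
          (fun i => (r i).eval s) ≠ 0 ∧ (∃ w, Img φ (k * n) (fun i => (r i).eval s) w) ∧
          ∀ w, Img φ (k * n) (fun i => (r i).eval s) w →
            ∃ c : L, c ≠ 0 ∧ ∀ i, ‖c * σ (w i) - x i‖ < ε := by
  have hp0 := norm_p_pos' (L := L) p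
  have hpne : (p : L) ≠ 0 := Nat.cast_ne_zero.2 hp.out.ne_zero
  -- polynomial identities along the curve
  have hcvW : ∀ W : MvPolynomial ι K, aeval r W = 0 → ∀ s : L, eval (cv σ r s) (map σ W) = 0 := by
    intro W hW s
    rw [eval_cv, hW, Polynomial.eval₂_zero]
  have hcvK : ∀ q ∈ S, ∀ s : K, eval (fun i => (r i).eval s) q = 0 := fun q hq s => by
    rw [eval_cv', hr q hq, Polynomial.eval_zero]
  obtain ⟨c₀, m, k, C, C', hc₀, hk, hFam, hfam⟩ := family hSHAD hNEWT p hpL hS h r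
    (fun q hq s => by
      have h1 := hcvW q (hr q hq) s
      rw [eval_map] at h1
      exact h1) s₀ hx₀
  have hpm : (p : L) ^ m ≠ 0 := pow_ne_zero _ hpne
  -- the link with the `K`-points
  have hlink : ∀ (s' : K) (s : L), ‖s‖ ≤ 1 → σ s' = s₀ + (p : L) ^ m * s → ∀ n : ℕ,
      (fun i => (r i).eval s') ≠ 0 ∧ (∃ v, Img φ (k * n) (fun i => (r i).eval s') v) ∧
      ∀ v, Img φ (k * n) (fun i => (r i).eval s') v →
        ∃ c : L, c ≠ 0 ∧ ∀ i, ev C s n i = c * σ (v i) := by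
    intro s' s hs hs' n
    obtain ⟨z, w, hzp, hz, hzi, hwp, hwi, hRp⟩ := hfam s hs n
    have hPr : Pr σ z (fun i => (r i).eval s') := by
      refine ⟨c₀⁻¹, inv_ne_zero hc₀, fun i => ?_⟩
      rw [hzi i, ← hs', Polynomial.eval₂_at_apply]
    obtain ⟨h1, h2⟩ := link hF h hzp hz hwp hRp (fun q hq => hcvK q hq s') hPr
    refine ⟨hPr.ne_zero hzp, h1, fun v hv => ?_⟩
    obtain ⟨c, hc, h3⟩ := h2 v hv
    exact ⟨c, hc, fun i => by rw [← hwi i, h3 i]⟩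
  -- the equations
  have hZ : ∀ q ∈ S, ∀ s t : L, ‖s‖ ≤ 1 → ‖t‖ ≤ 1 → eval (ev C s t) (map σ q) = 0 := by
    intro q hq s t hs ht
    refine hZERO L ι ‖(p : L)‖ hp0.le hpL C C' hFam (map σ q) s hs _
      (acc_multiples p hpL one_pos one_pos) ?_ t ht
    rintro _ ⟨n, -, rfl, -⟩ -
    obtain ⟨z, w, hzp, hz, -, -, hwi, hRp⟩ := hfam s hs n
    have h1 := eval_of_mem_ZS p hpL (Rp.mem h hz hzp hRp).1 hq
    have h2 : (fun i => (w i : L)) = ev C s n := funext hwi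
    rwa [h2] at h1
  -- the time zero
  have hC0 : ∀ s : L, ‖s‖ ≤ 1 → ∃ l : L, l ≠ 0 ∧
      ∀ i, C i 0 s = l * cv σ r (s₀ + (p : L) ^ m * s) i := by
    intro s hs
    obtain ⟨z, w, hzp, hz, hzi, hwp, hwi, hRp⟩ := hfam s hs 0
    rw [Nat.mul_zero] at hRp
    obtain ⟨c, hc, hw⟩ := hRp.2.eq_smul hzp hwp
    have hcne : (c : L) ≠ 0 := by
      intro h0
      unfold nm at hc
      rw [h0, norm_zero] at hc
      exact zero_ne_one hc
    refine ⟨(c : L) * c₀⁻¹, mul_ne_zero hcne (inv_ne_zero hc₀), fun i => ?_⟩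
    have h1 := hwi i
    rw [Nat.cast_zero, ev_zero] at h1
    rw [← h1, hw]
    push_cast
    rw [hzi i, mul_assoc]
    rfl
  -- immersion
  obtain ⟨ρ₁, hρ₁, himm⟩ : ∃ ρ₁ > (0 : ℝ), ∀ s : L, ‖s‖ < ρ₁ →
      ∃ i j, cv σ r (s₀ + (p : L) ^ m * s) i *
        ((p : L) ^ m * (r j).derivative.eval₂ σ (s₀ + (p : L) ^ m * s)) -
        cv σ r (s₀ + (p : L) ^ m * s) j *
        ((p : L) ^ m * (r i).derivative.eval₂ σ (s₀ + (p : L) ^ m * s)) ≠ 0 := by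
    obtain ⟨i, j, hij⟩ := him
    have hcont : Continuous fun s : L => cv σ r (s₀ + (p : L) ^ m * s) i *
        ((p : L) ^ m * (r j).derivative.eval₂ σ (s₀ + (p : L) ^ m * s)) -
        cv σ r (s₀ + (p : L) ^ m * s) j *
        ((p : L) ^ m * (r i).derivative.eval₂ σ (s₀ + (p : L) ^ m * s)) := by
      have h1 : ∀ P : Polynomial K, Continuous fun s : L => P.eval₂ σ (s₀ + (p : L) ^ m * s) := by
        intro P
        have h2 : (fun s : L => P.eval₂ σ (s₀ + (p : L) ^ m * s)) =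
            fun s : L => (P.map σ).eval (s₀ + (p : L) ^ m * s) := by
          funext s; rw [Polynomial.eval_map]
        rw [h2]
        exact (P.map σ).continuous.comp (by fun_prop)
      have h3 := h1 (r i)
      have h4 := h1 (r j)
      have h5 := h1 (r i).derivative
      have h6 := h1 (r j).derivative
      simp only [cv]
      fun_prop
    have h1 : ∀ᶠ s in 𝓝 (0 : L), cv σ r (s₀ + (p : L) ^ m * s) i *
        ((p : L) ^ m * (r j).derivative.eval₂ σ (s₀ + (p : L) ^ m * s)) -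
        cv σ r (s₀ + (p : L) ^ m * s) j *
        ((p : L) ^ m * (r i).derivative.eval₂ σ (s₀ + (p : L) ^ m * s)) ≠ 0 := by
      apply hcont.continuousAt.eventually_ne
      rw [mul_zero, add_zero]
      intro h0
      apply mul_ne_zero hpm hij
      linear_combination h0
    obtain ⟨ρ₁, hρ₁, h2⟩ := Metric.eventually_nhds_iff.1 h1
    exact ⟨ρ₁, hρ₁, fun s hs => ⟨i, j, h2 (by rwa [dist_zero_right])⟩⟩
  have himmC : ∀ s : L, ‖s‖ < ρ₁ → ‖s‖ < 1 →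
      ∃ i j, C i 0 s * C' j 0 s - C j 0 s * C' i 0 s ≠ 0 := fun s hs hs1 =>
    immersed hFam (fun i s => cv σ r (s₀ + (p : L) ^ m * s) i)
      (fun i s => (p : L) ^ m * (r i).derivative.eval₂ σ (s₀ + (p : L) ^ m * s))
      (fun i s => hasDerivAt_cv r s₀ _ i s) hC0 hs1 (himm s hs)
  -- the scale
  obtain ⟨l₀, hl₀, hl₀i⟩ := hC0 0 (by simp)
  rw [mul_zero, add_zero] at hl₀i
  set μ : L := l₀⁻¹ with hμ
  have hμ0 : μ ≠ 0 := inv_ne_zero hl₀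
  have hx₀μ : μ • ev C 0 0 = cv σ r s₀ := by
    funext i
    rw [Pi.smul_apply, ev_zero, hl₀i i, smul_eq_mul, hμ, inv_mul_cancel_left₀ hl₀]
  have hcont : ∀ s₁ t₁ : L, ‖s₁‖ ≤ 1 → ‖t₁‖ ≤ 1 →
      ContinuousAt (fun q : L × L => ev C q.1 q.2) (s₁, t₁) := by
    intro s₁ t₁ h1 h2
    obtain ⟨D, -, hD⟩ := hSTRICT L ι ‖(p : L)‖ hp0.le hpL C C' hFam s₁ t₁ h1 h2
    exact hD.continuousAt
  have hSL : ∀ q ∈ MvPolynomial.map σ '' S, ∃ d : ℕ, q.IsHomogeneous d := by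
    rintro _ ⟨q, hq, rfl⟩
    obtain ⟨d, hd⟩ := hS q hq
    exact ⟨d, hd.map σ⟩
  obtain ⟨ρ₂, hρ₂, hnear⟩ : ∃ ρ₂ > (0 : ℝ), ∀ s t : L, ‖s‖ < ρ₂ → ‖t‖ < ρ₂ →
      μ • ev C s t ∈ (Set.univ : Set (ι → L)) ∧
        Module.finrank L (tanSp (MvPolynomial.map σ '' S) (μ • ev C s t)) ≤ 3 := by
    have h1 : ContinuousAt (fun q : L × L => μ • ev C q.1 q.2) (0, 0) :=
      (hcont 0 0 (by simp) (by simp)).const_smul μ
    have h2 := hTAN L ι (MvPolynomial.map σ '' S) (cv σ r s₀) htan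
    have h3 : ∀ᶠ y in 𝓝 (cv σ r s₀), y ∈ (Set.univ : Set (ι → L)) ∧
        Module.finrank L (tanSp (MvPolynomial.map σ '' S) y) ≤ 3 :=
      Filter.Eventually.and Filter.univ_mem h2
    rw [← hx₀μ] at h3
    obtain ⟨ρ₂, hρ₂, h4⟩ := Metric.eventually_nhds_iff.1 (h1.eventually h3)
    refine ⟨ρ₂, hρ₂, fun s t hs ht => ?_⟩
    have h5 : dist ((s, t) : L × L) (0, 0) < ρ₂ := by
      rw [Prod.dist_eq, dist_zero_right, dist_zero_right]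
      exact max_lt hs ht
    have h6 := h4 h5
    exact h6
  -- the parameters near `s₀`
  obtain ⟨ρ₃, hρ₃, hnearA⟩ : ∃ ρ₃ > (0 : ℝ), ∀ s : L, ‖s‖ < ρ₃ → s₀ + (p : L) ^ m * s ∈ A := by
    have h1 : ContinuousAt (fun s : L => s₀ + (p : L) ^ m * s) 0 := by fun_prop
    have h2 : ∀ᶠ s in 𝓝 (0 : L), s₀ + (p : L) ^ m * s ∈ A := by
      apply h1.eventually_mem
      simpa using hA
    obtain ⟨ρ₃, hρ₃, h3⟩ := Metric.eventually_nhds_iff.1 h2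
    exact ⟨ρ₃, hρ₃, fun s hs => h3 (by rwa [dist_zero_right])⟩
  refine ⟨k, hk, ?_⟩
  set ρ : ℝ := min 1 (min ρ₁ (min ρ₂ ρ₃)) with hρ
  have hρ0 : 0 < ρ := lt_min one_pos (lt_min hρ₁ (lt_min hρ₂ hρ₃))
  have hρ1 : ρ ≤ 1 := min_le_left _ _
  have hρρ₁ : ρ ≤ ρ₁ := (min_le_right _ _).trans (min_le_left _ _)
  have hρρ₂ : ρ ≤ ρ₂ := ((min_le_right _ _).trans (min_le_right _ _)).trans (min_le_left _ _)
  have hρρ₃ : ρ ≤ ρ₃ := ((min_le_right _ _).trans (min_le_right _ _)).trans (min_le_right _ _)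
  -- a point of rank three
  obtain ⟨s₁, t₁, hs₁, ⟨n₁, hn₁, rfl, ht₁⟩, i, j, l, hmin⟩ : ∃ s₁ t₁ : L, ‖s₁‖ < ρ ∧
      (∃ n : ℕ, 1 ∣ n ∧ t₁ = n ∧ ‖t₁‖ < ρ) ∧ ∃ i j l,
        mnr (ev C s₁ t₁) (ev C' s₁ t₁) (evt C s₁ t₁) i j l ≠ 0 := by
    by_contra hcon
    push Not at hcon
    obtain ⟨W, e, hWh, hWr, s', hs', w', hw', hW'⟩ := hper k hk
    apply hW'
    refine hGEN K ι S φ r hcvK k W e hWh ?_ s' hs' w' hw'
    refine (infinite_near hσ s₀ (show 0 < ‖(p : L) ^ m‖ * ρ by positivity)).mono ?_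
    intro y hy
    set s : L := (σ y - s₀) / (p : L) ^ m with hs
    have hs1 : ‖s‖ < ρ := by
      rw [hs, norm_div, div_lt_iff₀ (norm_pos_iff.2 hpm), mul_comm]
      exact hy
    have hpar : σ y = s₀ + (p : L) ^ m * s := by
      rw [hs]
      field_simp
      ring
    obtain ⟨h1, ⟨v, hv⟩, h3⟩ := hlink y s (hs1.le.trans hρ1) hpar 1
    rw [Nat.mul_one] at hv h3
    refine ⟨h1, v, hv, ?_⟩
    obtain ⟨c, hc, h4⟩ := h3 v hv
    rw [← eval_of_smul hWh hc h4]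
    refine hFLAT L ι ‖(p : L)‖ hp0.le hpL C C' hFam ρ hρ0 hρ1
      (fun s hs => himmC s (hs.trans_le hρρ₁) (hs.trans_le hρ1)) _
      (acc_multiples p hpL one_pos hρ0) (fun s hs t ht _ i j l => hcon s t hs ht i j l)
      (map σ W) e (hWh.map σ) (fun s hs => ?_) s _ hs1 ?_
    · obtain ⟨l, hl, h5⟩ := hC0 s (hs.le.trans hρ1)
      have h6 : (fun i => C i 0 s) = fun i => l * cv σ r (s₀ + (p : L) ^ m * s) i := funext h5
      rw [h6, eval_hom (hWh.map σ), hcvW W hWr, mul_zero]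
    · rw [Nat.cast_one, norm_one]
  have hs₁1 : ‖s₁‖ < 1 := hs₁.trans_le hρ1
  have ht₁1 : ‖(n₁ : L)‖ < 1 := ht₁.trans_le hρ1
  have hz2 := (hnear s₁ n₁ (hs₁.trans_le hρρ₂) (ht₁.trans_le hρρ₂)).2
  refine ⟨s₀ + (p : L) ^ m * s₁, hnearA s₁ (hs₁.trans_le hρρ₃), fun κ hκ => ?_⟩
  have hκ0 : 0 < ‖(κ : L)‖ := norm_pos_iff.2 (Nat.cast_ne_zero.2 hκ.ne')
  obtain ⟨D, hD, hstr⟩ := hSTRICT L ι ‖(p : L)‖ hp0.le hpL C C' hFam s₁ n₁ hs₁1.le ht₁1.le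
  have hlt : ∀ᶠ b : L × L in 𝓝 (s₁, (n₁ : L)), ‖b.1‖ < 1 ∧ ‖b.2‖ < 1 := by
    have h1 : ContinuousAt (fun b : L × L => ‖b.1‖) (s₁, (n₁ : L)) := by fun_prop
    have h2 : ContinuousAt (fun b : L × L => ‖b.2‖) (s₁, (n₁ : L)) := by fun_prop
    exact (h1.eventually_lt continuousAt_const hs₁1).and
      (h2.eventually_lt continuousAt_const ht₁1)
  have hN : {b : L × L | (‖b.1‖ < 1 ∧ ‖b.2‖ < 1) ∧ ‖b.2 - (n₁ : L)‖ < ‖(κ : L)‖} ∈
      𝓝 (s₁, (n₁ : L)) := by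
    have h2 : ContinuousAt (fun b : L × L => ‖b.2 - (n₁ : L)‖) (s₁, (n₁ : L)) := by fun_prop
    exact hlt.and (h2.eventually_lt continuousAt_const (by simpa using hκ0))
  have hop := hOPEN L ι (MvPolynomial.map σ '' S) hSL (fun q : L × L => ev C q.1 q.2)
    (s₁, (n₁ : L)) D hstr (hlt.mono fun b hb => by
      rintro _ ⟨q, hq, rfl⟩
      exact hZ q hq b.1 b.2 hb.1.le hb.2.le)
    ⟨i, j, l, by
      have h1 : D (1, 0) = ev C' s₁ n₁ := by rw [hD, one_smul, zero_smul, add_zero]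
      have h2 : D (0, 1) = evt C s₁ n₁ := by rw [hD, one_smul, zero_smul, zero_add]
      rw [h1, h2]
      exact hmin⟩ (by rwa [tanSp_smul hSL hμ0] at hz2) _ hN
  -- the tuple of the iterate of order `k * n₁` near the point of the curve
  obtain ⟨z₁, w₁, hz₁p, hz₁, hz₁i, hw₁p, hw₁i, hRp₁⟩ := hfam s₁ hs₁1.le n₁
  have hδp0 : 0 ≤ ‖(p : L)‖ ^ 2 := by positivity
  have hδp := sq_lt (L := L) p hpL
  obtain ⟨Fn, D', hFnh, hFn⟩ := chain h hδp0 hδp hz₁ hz₁p (k * n₁)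
  obtain ⟨hq1, hq2⟩ := hFn z₁ hz₁ hz₁p (Cl.self hδp0 _)
  have hcl₁ := Rp.contr h le_rfl zero_lt_one hz₁ hz₁p hz₁ hz₁p (Cl.self le_rfl _) hq2 hRp₁
  obtain ⟨c₁, hc₁, hw₁⟩ := hcl₁.eq_smul hq1 hw₁p
  have hc₁0 : (c₁ : L) ≠ 0 := by
    intro h0
    unfold nm at hc₁
    rw [h0, norm_zero] at hc₁
    exact zero_ne_one hc₁
  -- the continuous map
  set Θ : (ι → L) → (ι → L) := fun y i =>
    (c₁ : L) * eval y (map (unitBall L).subtype (Fn i)) with hΘ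
  have hΘc : Continuous Θ := by
    apply continuous_pi
    intro i
    exact continuous_const.mul (MvPolynomial.continuous_eval _)
  have hΘz : ∀ y : ι → unitBall L, Θ (fun i => (y i : L)) = fun i => ((c₁ * pt Fn y i : unitBall L) : L) := by
    intro y
    funext i
    simp only [hΘ]
    rw [← eval_coe]
    push_cast
    rfl
  have hΘ1 : Θ (fun i => (z₁ i : L)) = ev C s₁ n₁ := by
    rw [hΘz]
    funext i
    rw [← hw₁i i, hw₁]
  have hbase : (fun i => (z₁ i : L)) = c₀⁻¹ • cv σ r (s₀ + (p : L) ^ m * s₁) := by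
    funext i
    rw [hz₁i i]
    rfl
  have hev1 : ∀ᶠ x in 𝓝 (cv σ r (s₀ + (p : L) ^ m * s₁)),
      ‖c₀⁻¹ • x - fun i => (z₁ i : L)‖ < ‖(p : L)‖ ^ 2 := by
    have h1 : ContinuousAt (fun x : ι → L => ‖c₀⁻¹ • x - fun i => (z₁ i : L)‖)
        (cv σ r (s₀ + (p : L) ^ m * s₁)) := by fun_prop
    apply h1.eventually_lt continuousAt_const
    rw [← hbase, sub_self, norm_zero]
    positivity
  have hev2 : ∀ᶠ x in 𝓝 (cv σ r (s₀ + (p : L) ^ m * s₁)),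
      ((∀ q ∈ MvPolynomial.map σ '' S, eval (Θ (c₀⁻¹ • x)) q = 0) →
        ∃ l : L, l ≠ 0 ∧ ∃ b ∈ {b : L × L | (‖b.1‖ < 1 ∧ ‖b.2‖ < 1) ∧
          ‖b.2 - (n₁ : L)‖ < ‖(κ : L)‖}, Θ (c₀⁻¹ • x) = l • ev C b.1 b.2) := by
    have h1 : ContinuousAt (fun x : ι → L => Θ (c₀⁻¹ • x)) (cv σ r (s₀ + (p : L) ^ m * s₁)) :=
      (hΘc.comp (continuous_const_smul c₀⁻¹)).continuousAt
    have h2 : Θ (c₀⁻¹ • cv σ r (s₀ + (p : L) ^ m * s₁)) = ev C s₁ n₁ := by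
      rw [← hbase, hΘ1]
    have h3 : Tendsto (fun x : ι → L => Θ (c₀⁻¹ • x)) (𝓝 (cv σ r (s₀ + (p : L) ^ m * s₁)))
        (𝓝 (ev C s₁ n₁)) := by
      rw [← h2]; exact h1
    exact h3.eventually hop
  filter_upwards [hev1, hev2] with x hx1 hx2 hxS ε hε
  -- the point over the integers
  have hxn : ∀ i, ‖c₀⁻¹ * x i - (z₁ i : L)‖ < ‖(p : L)‖ ^ 2 := fun i =>
    (norm_le_pi_norm (c₀⁻¹ • x - fun i => (z₁ i : L)) i).trans_lt hx1
  have hx'1 : ∀ i, ‖c₀⁻¹ * x i‖ ≤ 1 := by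
    intro i
    have h1 : c₀⁻¹ * x i = (c₀⁻¹ * x i - (z₁ i : L)) + (z₁ i : L) := by ring
    rw [h1]
    exact (IsUltrametricDist.norm_add_le_max _ _).trans
      (max_le ((hxn i).le.trans hδp.le) (unitBall_norm_le _))
  let x' : ι → unitBall L := fun i => ⟨c₀⁻¹ * x i, hx'1 i⟩
  have hx'near : ∀ i, nm (x' i - 1 * z₁ i) ≤ ‖(p : L)‖ ^ 2 := by
    intro i
    rw [one_mul]
    exact (hxn i).le
  have hx'p : Prim x' := Prim.of_near hδp nm_one hz₁p hx'near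
  have hx'Z : x' ∈ ZS (QS σ S) := mem_ZS_of_L hS (fun q hq => by
    have h1 := hxS q hq
    rwa [eval_map] at h1) (c := c₀⁻¹) fun i => rfl
  obtain ⟨hg1, hg2⟩ := hFn x' hx'Z hx'p (Cl.of_near hx'near)
  have hΘx : Θ (c₀⁻¹ • x) = fun i => ((c₁ * pt Fn x' i : unitBall L) : L) := hΘz x'
  obtain ⟨l', hl', b, ⟨⟨hb1, hb2⟩, hb3⟩, hxb⟩ := hx2 (by
    rintro _ ⟨q, hq, rfl⟩
    obtain ⟨d, hd⟩ := hS q hq
    have h1 := eval_of_mem_ZS p hpL (Rp.mem h hx'Z hx'p hg2).1 hq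
    have h2 : (fun i => ((c₁ * pt Fn x' i : unitBall L) : L)) =
        fun i => (c₁ : L) * ((pt Fn x' i : unitBall L) : L) := by
      funext i; push_cast; rfl
    rw [hΘx, h2, eval_hom (hd.map σ), h1, mul_zero])
  rw [hΘx] at hxb
  refine ⟨s₀ + (p : L) ^ m * b.1, b.2 - (n₁ : L), hb3.le, ?_⟩
  -- the tolerance
  have hc₀n : 0 < ‖c₀‖ := norm_pos_iff.2 hc₀
  have hl'n : 0 < ‖l'‖ := norm_pos_iff.2 hl'
  set η : ℝ := min (1 / 2) (ε / (2 * ‖c₀‖)) with hη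
  have hη0 : 0 < η := lt_min (by norm_num) (by positivity)
  have hη1 : η < 1 := (min_le_left _ _).trans_lt (by norm_num)
  obtain ⟨δ₁, hδ₁, h2⟩ := Metric.continuousAt_iff.1 (hcont b.1 b.2 hb1.le hb2.le) (η / ‖l'‖)
    (by positivity)
  have hpm' : 0 < ‖(p : L) ^ m‖ := norm_pos_iff.2 hpm
  have hpm1 : ‖(p : L) ^ m‖ ≤ 1 := by
    rw [norm_pow]; exact pow_le_one₀ hp0.le hpL.le
  have hmin1 : 0 < min δ₁ 1 := lt_min hδ₁ one_pos
  refine ⟨‖(p : L) ^ m‖ * min δ₁ 1, by positivity, fun s hs n hn => ?_⟩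
  set s'' : L := (σ s - s₀) / (p : L) ^ m with hs''
  have hpar : σ s = s₀ + (p : L) ^ m * s'' := by
    rw [hs'']
    field_simp
    ring
  have h3 : ‖s'' - b.1‖ < min δ₁ 1 := by
    have h4 : (p : L) ^ m * (s'' - b.1) = σ s - (s₀ + (p : L) ^ m * b.1) := by
      rw [hpar]; ring
    have h5 : ‖(p : L) ^ m‖ * ‖s'' - b.1‖ < ‖(p : L) ^ m‖ * min δ₁ 1 := by
      rw [← norm_mul, h4]; exact hs
    exact lt_of_mul_lt_mul_left h5 hpm'.le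
  have h6 : ‖s''‖ ≤ 1 := by
    have h7 : s'' = (s'' - b.1) + b.1 := by ring
    rw [h7]
    exact (IsUltrametricDist.norm_add_le_max _ _).trans
      (max_le (h3.le.trans (min_le_right _ _)) hb1.le)
  have h8 : ‖((n + n₁ : ℕ) : L) - b.2‖ < δ₁ := by
    have e : ((n + n₁ : ℕ) : L) - b.2 = (n : L) - (b.2 - (n₁ : L)) := by push_cast; ring
    rw [e]
    refine hn.trans_le ?_
    calc ‖(p : L) ^ m‖ * min δ₁ 1 ≤ 1 * min δ₁ 1 :=
          mul_le_mul_of_nonneg_right hpm1 hmin1.le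
      _ ≤ δ₁ := by rw [one_mul]; exact min_le_left _ _
  obtain ⟨g1, g2, g3⟩ := hlink s s'' h6 hpar n
  refine ⟨g1, g2, fun w hw => ?_⟩
  obtain ⟨c, hc, h9⟩ := g3 w hw
  -- the two members of the family
  obtain ⟨z₂, w₂, hz₂p, hz₂, hz₂i, hw₂p, hw₂i, hRp₂⟩ := hfam s'' h6 n
  obtain ⟨z₃, w₃, hz₃p, hz₃, hz₃i, hw₃p, hw₃i, hRp₃⟩ := hfam s'' h6 (n + n₁)
  have hzz : z₃ = z₂ := by
    funext i
    apply Subtype.ext
    rw [hz₃i i, hz₂i i]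
  rw [hzz, Nat.mul_add] at hRp₃
  obtain ⟨v, hv1, hv2⟩ := (Rp.add h hz₂ hz₂p (k * n) (k * n₁)).1 hRp₃
  obtain ⟨hvZ, hvp⟩ := Rp.mem h hz₂ hz₂p hv1
  have hcl2 := Rp.contr h le_rfl zero_lt_one hz₂ hz₂p hz₂ hz₂p (Cl.self le_rfl _) hRp₂ hv1
  -- closeness after the iterate
  have h10 : dist ((s'', ((n + n₁ : ℕ) : L)) : L × L) b < δ₁ := by
    rw [Prod.dist_eq, dist_eq_norm, dist_eq_norm]
    exact max_lt (h3.trans_le (min_le_left _ _)) h8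
  have h11 := h2 h10
  rw [dist_eq_norm] at h11
  have h12 : ∀ i, ‖(w₃ i : L) - ev C b.1 b.2 i‖ ≤ η / ‖l'‖ := by
    intro i
    rw [hw₃i i]
    exact ((norm_le_pi_norm _ i).trans_lt h11).le
  have hcl3 : Cl η w₃ (pt Fn x') := by
    intro i j
    have h13 : ∀ i, ((pt Fn x' i : unitBall L) : L) = (c₁ : L)⁻¹ * (l' * ev C b.1 b.2 i) := by
      intro i
      have h14 := congrFun hxb i
      simp only [Pi.smul_apply, smul_eq_mul] at h14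
      rw [← h14]
      push_cast
      rw [inv_mul_cancel_left₀ hc₁0]
    have hc₁n : ‖(c₁ : L)‖ = 1 := hc₁
    change ‖((w₃ i * pt Fn x' j - w₃ j * pt Fn x' i : unitBall L) : L)‖ ≤ η
    push_cast
    rw [h13 i, h13 j]
    have e : (w₃ i : L) * ((c₁ : L)⁻¹ * (l' * ev C b.1 b.2 j)) -
        (w₃ j : L) * ((c₁ : L)⁻¹ * (l' * ev C b.1 b.2 i)) =
        (c₁ : L)⁻¹ * l' * ((w₃ j : L) * ((w₃ i : L) - ev C b.1 b.2 i) -
          (w₃ i : L) * ((w₃ j : L) - ev C b.1 b.2 j)) := by ring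
    rw [e, norm_mul, norm_mul, norm_inv, hc₁n, inv_one, one_mul]
    have h15 : ‖(w₃ j : L) * ((w₃ i : L) - ev C b.1 b.2 i) -
          (w₃ i : L) * ((w₃ j : L) - ev C b.1 b.2 j)‖ ≤ η / ‖l'‖ := by
      rw [sub_eq_add_neg]
      refine (IsUltrametricDist.norm_add_le_max _ _).trans (max_le ?_ ?_)
      · rw [norm_mul]
        exact (mul_le_of_le_one_left (norm_nonneg _) (unitBall_norm_le _)).trans (h12 i)
      · rw [norm_neg, norm_mul]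
        exact (mul_le_of_le_one_left (norm_nonneg _) (unitBall_norm_le _)).trans (h12 j)
    calc ‖l'‖ * _ ≤ ‖l'‖ * (η / ‖l'‖) := mul_le_mul_of_nonneg_left h15 hl'n.le
      _ = η := by field_simp
  have hcl4 : Cl η v x' := Rp.back h hη0.le hη1 hvZ hvp hx'Z hx'p hv2 hg2 hcl3
  have hcl5 : Cl η w₂ x' := (hcl2.mono hη0.le).trans hη1 hw₂p hvp hx'p hcl4
  obtain ⟨c₂, hc₂, h16⟩ := hcl5.near hη1 hw₂p hx'p
  have hc₂0 : (c₂ : L) ≠ 0 := by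
    intro h0
    unfold nm at hc₂
    rw [h0, norm_zero] at hc₂
    exact zero_ne_one hc₂
  refine ⟨c₀ * (c₂ : L) * c, mul_ne_zero (mul_ne_zero hc₀ hc₂0) hc, fun i => ?_⟩
  have h17 : c₀ * (c₂ : L) * c * σ (w i) - x i = - (c₀ * ((x' i : L) - (c₂ : L) * (w₂ i : L))) := by
    have h18 : (x' i : L) = c₀⁻¹ * x i := rfl
    rw [hw₂i i, h9 i, h18]
    field_simp
    ring
  rw [h17, norm_neg, norm_mul]
  have h19 : ‖(x' i : L) - (c₂ : L) * (w₂ i : L)‖ ≤ η := h16 i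
  calc ‖c₀‖ * ‖(x' i : L) - (c₂ : L) * (w₂ i : L)‖ ≤ ‖c₀‖ * (ε / (2 * ‖c₀‖)) :=
        mul_le_mul_of_nonneg_left (h19.trans (min_le_right _ _)) hc₀n.le
    _ = ε / 2 := by field_simp
    _ < ε := by linarith

end Pool.Agent.K1H47.RC
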