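import Mathlib

set_option autoImplicit false

/-! Interface (Mathlib only): analytic families of orbits through a curve over an ultrametric
field; the open mapping property; smooth points; density. -/

namespace Pool.Agent.K1H47.RC

open MvPolynomial Topology Filter

/-- `a` is a function on the closed unit ball with derivative `a'` which satisfies the estimates of
a polynomial whose coefficients have norms at most `C`. -/
def Sm {L : Type} [NormedField L] (C : ℝ) (a a' : L → L) : Prop :=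
  (∀ s, ‖s‖ ≤ 1 → ‖a s‖ ≤ C) ∧ (∀ s, ‖s‖ ≤ 1 → ‖a' s‖ ≤ C) ∧
  ∀ s s' s₁, ‖s‖ ≤ 1 → ‖s'‖ ≤ 1 → ‖s₁‖ ≤ 1 →
    ‖a s - a s' - a' s₁ * (s - s')‖ ≤ C * (‖s - s'‖ * max ‖s - s₁‖ ‖s' - s₁‖)

/-- the value at the time `t` of the series with the coefficients `c i k s` -/
noncomputable def ev {L : Type} [NormedField L] {ι : Type} (c : ι → ℕ → L → L) (s t : L) :
    ι → L := fun i => ∑' k, c i k s * t ^ k

/-- its derivative in the time -/
noncomputable def evt {L : Type} [NormedField L] {ι : Type} (c : ι → ℕ → L → L) (s t : L) :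
    ι → L := fun i => ∑' k, ((k + 1 : ℕ) : L) * c i (k + 1) s * t ^ k

/-- an analytic family -/
def Fam {L : Type} [NormedField L] {ι : Type} (r : ℝ) (c c' : ι → ℕ → L → L) : Prop :=
  ∀ i k, Sm (r ^ k) (c i k) (c' i k)

/-- The `3 × 3` minor of three vectors. -/
def mnr {L : Type} [CommRing L] {ι : Type} (u v w : ι → L) (i j k : ι) : L :=
  Matrix.det !![u i, u j, u k; v i, v j, v k; w i, w j, w k]

/-- the points of `T` accumulate at zero -/
def Acc {L : Type} [NormedField L] (T : Set L) : Prop := ∀ ε > (0 : ℝ), ∃ t ∈ T, t ≠ 0 ∧ ‖t‖ < ε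

/-- The tangent space at `z` of the cone defined by `S`. -/
def tanSp {L : Type} [Field L] {ι : Type} [Fintype ι] (S : Set (MvPolynomial ι L)) (z : ι → L) :
    Submodule L (ι → L) where
  carrier := {w | ∀ q ∈ S, ∑ i, eval z (pderiv i q) * w i = 0}
  add_mem' := fun {a b} ha hb q hq => by
    simp only [Pi.add_apply, mul_add, Finset.sum_add_distrib]
    rw [ha q hq, hb q hq, add_zero]
  zero_mem' := fun q _ => by simp
  smul_mem' := fun c a ha q hq => by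
    simp only [Pi.smul_apply, smul_eq_mul]
    have h := ha q hq
    calc ∑ i, eval z (pderiv i q) * (c * a i) = c * ∑ i, eval z (pderiv i q) * a i := by
          rw [Finset.mul_sum]
          exact Finset.sum_congr rfl fun i _ => by ring
      _ = 0 := by rw [h, mul_zero]

/-- STRICT: joint strict differentiability. -/
def S_STRICT : Prop := ∀ (L : Type) [NontriviallyNormedField L] [CompleteSpace L]
  [IsUltrametricDist L] (ι : Type) [Fintype ι] (r : ℝ), 0 ≤ r → r < 1 →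
  ∀ c c' : ι → ℕ → L → L, Fam r c c' → ∀ s₁ t₁ : L, ‖s₁‖ ≤ 1 → ‖t₁‖ ≤ 1 →
  ∃ D : L × L →L[L] (ι → L), (∀ x y : L, D (x, y) = x • ev c' s₁ t₁ + y • evt c s₁ t₁) ∧
    HasStrictFDerivAt (fun q : L × L => ev c q.1 q.2) D (s₁, t₁)

/-- ZERO: the identity theorem in the time. -/
def S_ZERO : Prop := ∀ (L : Type) [NontriviallyNormedField L] [CompleteSpace L]
  [IsUltrametricDist L] (ι : Type) [Fintype ι] (r : ℝ), 0 ≤ r → r < 1 →
  ∀ c c' : ι → ℕ → L → L, Fam r c c' → ∀ (W : MvPolynomial ι L) (s : L), ‖s‖ ≤ 1 →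
  ∀ T : Set L, Acc T → (∀ t ∈ T, ‖t‖ ≤ 1 → eval (ev c s t) W = 0) →
  ∀ t : L, ‖t‖ ≤ 1 → eval (ev c s t) W = 0

/-- FLAT: if the family has rank at most two (as a family of vectors of a cone) then it stays in
the cone over the curve. -/
def S_FLAT : Prop := ∀ (L : Type) [NontriviallyNormedField L] [CompleteSpace L]
  [IsUltrametricDist L] [CharZero L] (ι : Type) [Fintype ι] (r : ℝ), 0 ≤ r → r < 1 →
  ∀ c c' : ι → ℕ → L → L, Fam r c c' → ∀ ρ : ℝ, 0 < ρ → ρ ≤ 1 →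
  (∀ s, ‖s‖ < ρ → ∃ i j, c i 0 s * c' j 0 s - c j 0 s * c' i 0 s ≠ 0) →
  ∀ T : Set L, Acc T →
  (∀ s, ‖s‖ < ρ → ∀ t ∈ T, ‖t‖ ≤ 1 → ∀ i j k,
    mnr (ev c s t) (ev c' s t) (evt c s t) i j k = 0) →
  ∀ (W : MvPolynomial ι L) (e : ℕ), W.IsHomogeneous e →
  (∀ s, ‖s‖ < ρ → eval (fun i => c i 0 s) W = 0) →
  ∀ s t, ‖s‖ < ρ → ‖t‖ ≤ 1 → eval (ev c s t) W = 0

/-- OPEN: the open mapping property at a smooth point of a cone of dimension three. -/
def S_OPEN : Prop := ∀ (L : Type) [NontriviallyNormedField L] [CompleteSpace L] (ι : Type)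
  [Fintype ι] [DecidableEq ι] (S : Set (MvPolynomial ι L)),
  (∀ q ∈ S, ∃ d : ℕ, q.IsHomogeneous d) →
  ∀ (Ψ : L × L → ι → L) (a : L × L) (D : L × L →L[L] (ι → L)), HasStrictFDerivAt Ψ D a →
  (∀ᶠ b in 𝓝 a, ∀ q ∈ S, eval (Ψ b) q = 0) →
  (∃ i j k, mnr (Ψ a) (D (1, 0)) (D (0, 1)) i j k ≠ 0) →
  Module.finrank L (tanSp S (Ψ a)) ≤ 3 →
  ∀ N ∈ 𝓝 a, ∀ᶠ z in 𝓝 (Ψ a), (∀ q ∈ S, eval z q = 0) →
    ∃ l : L, l ≠ 0 ∧ ∃ b ∈ N, z = l • Ψ b

/-- TAN: the smooth points form an open set. -/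
def S_TAN : Prop := ∀ (L : Type) [NontriviallyNormedField L] [CompleteSpace L] (ι : Type)
  [Fintype ι] [DecidableEq ι] (S : Set (MvPolynomial ι L)) (x : ι → L),
  Module.finrank L (tanSp S x) ≤ 3 → ∀ᶠ z in 𝓝 x, Module.finrank L (tanSp S z) ≤ 3

/-- SMOOTH: a smooth point on a parametrized curve gives almost only smooth points, over all
extensions. -/
def S_SMOOTH : Prop := ∀ (K : Type) [Field K] (ι : Type) [Fintype ι] [DecidableEq ι]
  (S : Set (MvPolynomial ι K)) (r : ι → Polynomial K) (s₀ : K),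
  Module.finrank K (tanSp S fun i => (r i).eval s₀) ≤ 3 →
  ∃ D : Polynomial K, D ≠ 0 ∧ ∀ (L : Type) [Field L] (σ : K →+* L) (s : L),
    D.eval₂ σ s ≠ 0 →
    Module.finrank L (tanSp (MvPolynomial.map σ '' S) fun i => (r i).eval₂ σ s) ≤ 3

/-- NEWT: from Newton series to power series. -/
def S_NEWT : Prop := ∀ (L : Type) [NontriviallyNormedField L] [CompleteSpace L]
  [IsUltrametricDist L] [CharZero L] (p : ℕ) [Fact p.Prime], ‖(p : L)‖ < 1 →
  ∀ a a' : ℕ → L → L, (∀ j, Sm (‖(p : L)‖ ^ (2 * j)) (a j) (a' j)) →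
  ∃ c c' : ℕ → L → L, (∀ k, Sm (‖(p : L)‖ ^ k) (c k) (c' k)) ∧
    ∀ s : L, ‖s‖ ≤ 1 → ∀ n : ℕ, HasSum (fun k => c k s * (n : L) ^ k)
      (∑ j ∈ Finset.range (n + 1), (n.choose j : L) * a j s)

/-- DENSE: simultaneous approximation by natural numbers and by rational numbers. -/
def S_DENSE : Prop := ∀ (ι : Type) [Finite ι] (p : ι → ℕ) [∀ i, Fact (p i).Prime],
  Function.Injective p →
  (∀ x : ∀ i, ℚ_[p i], (∀ i, ‖x i‖ ≤ 1) → ∀ ε > (0 : ℝ), ∃ m : ℕ, ∀ i, ‖(m : ℚ_[p i]) - x i‖ < ε) ∧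
  ∀ x : ∀ i, ℚ_[p i], ∀ ε > (0 : ℝ), ∃ q : ℚ, ∀ i, ‖(q : ℚ_[p i]) - x i‖ < ε

end Pool.Agent.K1H47.RC
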