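import Pool.Agent.K1H47.RC.Stm
import Pool.Agent.K1H69.MZ.Glob

set_option autoImplicit false

/-! Interface: shadows of the orbits through an arc, and generic points of a curve. -/

namespace Pool.Agent.K1H47.RC

open MvPolynomial Topology Filter Pool.Agent.H936R2 Pool.Agent.R847.Gap Pool.Agent.K1H69.MZ

/-- SHAD: the orbits through a polynomial arc as Newton series whose coefficients are smooth
functions of the parameter of the arc. -/
def S_SHAD : Prop := ∀ (L : Type) [NormedField L] [IsUltrametricDist L] [ProperSpace L]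
  [CharZero L] (p : ℕ) [Fact p.Prime], ‖(p : L)‖ < 1 → ∀ (ι : Type) [Fintype ι] [DecidableEq ι]
  (A B : Type) (Q : Set (MvPolynomial ι (unitBall L))) (F : Sys L ι A) (G : Sys L ι B),
  Good Q F G → ∀ x : ι → unitBall L, Prim x → ∀ (k : ℕ) (H : ι → MvPolynomial ι (unitBall L)),
  Window p Q F x k H → ∀ u : ι → Polynomial (unitBall L),
  (∀ s, dsc p x (fun i => (u i).eval s) ∈ ZS Q) →
  ∃ a a' : ι → ℕ → L → L, (∀ i j, Sm (‖(p : L)‖ ^ (2 * j)) (a i j) (a' i j)) ∧
    ∀ (s : unitBall L) (n : ℕ), ∃ v : ι → unitBall L,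
      (∀ i, (v i : L) = ∑ j ∈ Finset.range (n + 1), (n.choose j : L) * a i j s) ∧
      Rp F (k * n) (dsc p x fun i => (u i).eval s) (dsc p x v)

/-- GEN: a form which vanishes at the images of infinitely many points of a curve vanishes at the
images of all its points. -/
def S_GEN : Prop := ∀ (K : Type) [Field K] (ι : Type) [Fintype ι] [DecidableEq ι]
  (S : Set (MvPolynomial ι K)) (φ : Aut S) (r : ι → Polynomial K),
  (∀ q ∈ S, ∀ s : K, eval (fun i => (r i).eval s) q = 0) →
  ∀ (k : ℕ) (W : MvPolynomial ι K) (e : ℕ), W.IsHomogeneous e →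
  {s : K | (fun i => (r i).eval s) ≠ 0 ∧
    ∃ w, Img φ k (fun i => (r i).eval s) w ∧ eval w W = 0}.Infinite →
  ∀ s : K, (fun i => (r i).eval s) ≠ 0 → ∀ w, Img φ k (fun i => (r i).eval s) w → eval w W = 0

end Pool.Agent.K1H47.RC
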